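import Pool.Agent.H395R3.FimH

set_option autoImplicit false

namespace Pool.Agent.H395R4.Rec

open Relation Pool.Agent.H395R3.Fim

variable {k : ℕ}

/-- labelings of the vertices -/
abbrev Lb (k : ℕ) (R : Type) := Vx k → R

variable {R R' R₁ R₂ α β : Type}

/-- restriction of a labeling to a child -/
def ch (X : Lb k R) (a : Lt k) : Lb k R := fun w => X (w ++ [a])

/-- gluing labelings -/
def gl (r : R) (f : Lt k → Lb k R) : Lb k R := fun v =>
  if h : v = [] then r else f (v.getLast h) v.dropLast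

@[simp] lemma gl_nil (r : R) (f : Lt k → Lb k R) : gl r f [] = r := rfl

lemma ch_gl (r : R) (f : Lt k → Lb k R) (a : Lt k) : ch (gl r f) a = f a := by
  funext w
  simp [ch, gl]

/-- compositional invariants -/
def Cmp (ρ : Lb k R → α) : Prop :=
  ∀ X X' : Lb k R, X [] = X' [] → (∀ a, ρ (ch X a) = ρ (ch X' a)) → ρ X = ρ X'

lemma Cmp.lab {ρ : Lb k R → α} (h : Cmp ρ) (φ : R' → R) :
    Cmp (fun X : Lb k R' => ρ (fun v => φ (X v))) := by
  intro X X' h0 h1
  exact h _ _ (congrArg φ h0) h1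

lemma Cmp.pair {ρ : Lb k R → α} {σ : Lb k R → β} (h1 : Cmp ρ) (h2 : Cmp σ) :
    Cmp (fun X : Lb k R => (ρ X, σ X)) := by
  intro X X' h0 h
  exact Prod.ext (h1 X X' h0 fun a => (Prod.ext_iff.1 (h a)).1)
    (h2 X X' h0 fun a => (Prod.ext_iff.1 (h a)).2)

/-- bounded depth -/
def Dep (r0 : R) (n : ℕ) (X : Lb k R) : Prop := ∀ v : Vx k, n ≤ v.length → X v = r0

lemma Dep.mono {r0 : R} {n m : ℕ} {X : Lb k R} (h : Dep r0 n X) (hnm : n ≤ m) : Dep r0 m X :=
  fun v hv => h v (hnm.trans hv)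

lemma Dep.ch {r0 : R} {n : ℕ} {X : Lb k R} (h : Dep r0 (n + 1) X) (a : Lt k) :
    Dep r0 n (Rec.ch X a) := by
  intro v hv
  apply h
  simp only [List.length_append, List.length_cons, List.length_nil]
  omega

lemma Dep.gl {r0 : R} {n : ℕ} {r : R} {f : Lt k → Lb k R} (h : ∀ a, Dep r0 n (f a)) :
    Dep r0 (n + 1) (gl r f) := by
  intro v hv
  have hne : v ≠ [] := by
    rintro rfl
    simp at hv
  unfold Rec.gl
  rw [dif_neg hne]
  apply h
  rw [List.length_dropLast]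
  omega

/-- projection -/
def exq (r0 : R₂) (ρ : Lb k (R₁ × R₂) → α) (X : Lb k R₁) : Set α :=
  {t | ∃ (Y : Lb k R₂) (n : ℕ), Dep r0 n Y ∧ t = ρ (fun v => (X v, Y v))}

lemma Cmp.exq (r0 : R₂) {ρ : Lb k (R₁ × R₂) → α} (h : Cmp ρ) : Cmp (exq r0 ρ) := by
  have aux : ∀ X X' : Lb k R₁, X [] = X' [] →
      (∀ a, Rec.exq r0 ρ (ch X a) = Rec.exq r0 ρ (ch X' a)) →
      Rec.exq r0 ρ X ⊆ Rec.exq r0 ρ X' := by
    rintro X X' h0 h1 t ⟨Y, n, hY, rfl⟩
    have key : ∀ a, ∃ (Yf : Lb k R₂) (nf : ℕ), Dep r0 nf Yf ∧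
        ρ (fun v => (ch X a v, ch Y a v)) = ρ (fun v => (ch X' a v, Yf v)) := by
      intro a
      have h2 : ρ (fun v => (ch X a v, ch Y a v)) ∈ Rec.exq r0 ρ (ch X a) :=
        ⟨ch Y a, n, (hY.mono (Nat.le_succ n)).ch a, rfl⟩
      rw [h1 a] at h2
      obtain ⟨Yf, nf, h3, h4⟩ := h2
      exact ⟨Yf, nf, h3, h4⟩
    choose Yf nf hf1 hf2 using key
    refine ⟨gl (Y []) Yf, Finset.univ.sup nf + 1, ?_, ?_⟩
    · exact Dep.gl fun a => (hf1 a).mono (Finset.le_sup (Finset.mem_univ a))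
    · apply h
      · show (X [], Y []) = (X' [], Y [])
        rw [h0]
      · intro a
        have h2 : ch (fun v => (X' v, gl (Y []) Yf v)) a = fun v => (ch X' a v, Yf a v) := by
          funext v
          show (ch X' a v, ch (gl (Y []) Yf) a v) = _
          rw [ch_gl]
        rw [h2]
        exact hf2 a
  intro X X' h0 h1
  exact Set.Subset.antisymm (aux X X' h0 h1) (aux X' X h0.symm fun a => (h1 a).symm)

lemma depth_lemma [Finite α] (r1 : R₁) (r0 : R₂) {ρ : Lb k (R₁ × R₂) → α} (h : Cmp ρ) (n : ℕ) :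
    ∀ (X : Lb k R₁), Dep r1 n X → ∀ (Y : Lb k R₂) (m : ℕ), Dep r0 m Y →
      ∃ Y', Dep r0 (n + Nat.card α) Y' ∧
        ρ (fun v => (X v, Y' v)) = ρ (fun v => (X v, Y v)) := by
  classical
  induction n with
  | zero =>
    intro X hX Y m hY
    have hX' : X = fun _ => r1 := by
      funext v
      exact hX v (Nat.zero_le _)
    subst hX'
    let _ : Fintype α := Fintype.ofFinite _
    have key := stab (Finset.univ : Finset α)
      (fun j => {t | ∃ Y : Lb k R₂, Dep r0 j Y ∧ t = ρ (fun v => (r1, Y v))})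
      (fun n x _ => by simp)
      (by
        rintro n x ⟨Y, h1, h2⟩
        exact ⟨Y, h1.mono (Nat.le_succ n), h2⟩)
      (by
        intro n hn
        apply Set.Subset.antisymm
        · rintro x ⟨Y, h1, h2⟩
          exact ⟨Y, h1.mono (by omega), h2⟩
        · rintro x ⟨Y, h1, rfl⟩
          have key : ∀ a, ∃ Yf : Lb k R₂, Dep r0 n Yf ∧
              ρ (fun v => (r1, ch Y a v)) = ρ (fun v => (r1, Yf v)) := by
            intro a
            have h2 : ρ (fun v => (r1, ch Y a v)) ∈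
                {t | ∃ Y : Lb k R₂, Dep r0 (n + 1) Y ∧ t = ρ (fun v => (r1, Y v))} :=
              ⟨ch Y a, Dep.ch h1 a, rfl⟩
            rw [← hn] at h2
            obtain ⟨Yf, h3, h4⟩ := h2
            exact ⟨Yf, h3, h4⟩
          choose Yf hf1 hf2 using key
          refine ⟨gl (Y []) Yf, Dep.gl hf1, ?_⟩
          apply h
          · rfl
          · intro a
            have h2 : ch (fun v => (r1, gl (Y []) Yf v)) a = fun v => (r1, Yf a v) := by
              funext v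
              show (r1, ch (gl (Y []) Yf) a v) = _
              rw [ch_gl]
            rw [h2]
            exact hf2 a)
      m
    have h1 : ρ (fun v => (r1, Y v)) ∈
        {t | ∃ Y : Lb k R₂, Dep r0 m Y ∧ t = ρ (fun v => (r1, Y v))} := ⟨Y, hY, rfl⟩
    obtain ⟨Y', h2, h3⟩ := key h1
    refine ⟨Y', ?_, h3.symm⟩
    rw [Nat.card_eq_fintype_card, Nat.zero_add]
    exact h2
  | succ n ih =>
    intro X hX Y m hY
    have key : ∀ a, ∃ Yf : Lb k R₂, Dep r0 (n + Nat.card α) Yf ∧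
        ρ (fun v => (ch X a v, Yf v)) = ρ (fun v => (ch X a v, ch Y a v)) :=
      fun a => ih (ch X a) (hX.ch a) (ch Y a) m ((hY.mono (Nat.le_succ m)).ch a)
    choose Yf hf1 hf2 using key
    refine ⟨gl (Y []) Yf, ?_, ?_⟩
    · have := Dep.gl (r := Y []) hf1
      exact this.mono (by omega)
    · apply h
      · rfl
      · intro a
        have h2 : ch (fun v => (X v, gl (Y []) Yf v)) a = fun v => (ch X a v, Yf a v) := by
          funext v
          show (ch X a v, ch (gl (Y []) Yf) a v) = _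
          rw [ch_gl]
        rw [h2]
        exact hf2 a

lemma all_iff (P : Vx k → Prop) : (∀ v, P v) ↔ P [] ∧ ∀ a w, P (w ++ [a]) := by
  constructor
  · intro h; exact ⟨h _, fun a w => h _⟩
  · rintro ⟨h1, h2⟩ v
    rcases eq_nil_or_snoc v with rfl | ⟨w, a, rfl⟩
    · exact h1
    · exact h2 a w

lemma ex_iff (P : Vx k → Prop) : (∃ v, P v) ↔ P [] ∨ ∃ a w, P (w ++ [a]) := by
  constructor
  · rintro ⟨v, hv⟩
    rcases eq_nil_or_snoc v with rfl | ⟨w, a, rfl⟩
    · exact Or.inl hv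
    · exact Or.inr ⟨a, w, hv⟩
  · rintro (h | ⟨a, w, h⟩)
    · exact ⟨_, h⟩
    · exact ⟨_, h⟩

lemma cmp_all (Φ : R → Prop) : Cmp (fun X : Lb k R => ∀ v, Φ (X v)) := by
  intro X X' h0 h1
  apply propext
  show (∀ v, Φ (X v)) ↔ (∀ v, Φ (X' v))
  rw [all_iff, all_iff (fun v => Φ (X' v)), h0]
  have h2 : (∀ a w, Φ (X (w ++ [a]))) ↔ ∀ a w, Φ (X' (w ++ [a])) :=
    forall_congr' fun a => iff_of_eq (h1 a)
  rw [h2]

/-- nothing marked -/
def Emp (Φ : R → Prop) (X : Lb k R) : Prop := ∀ v, ¬ Φ (X v)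
/-- exactly one marked -/
def One (Φ : R → Prop) (X : Lb k R) : Prop := ∃ v, Φ (X v) ∧ ∀ v', Φ (X v') → v' = v

lemma emp_iff (Φ : R → Prop) (X : Lb k R) :
    Emp Φ X ↔ ¬ Φ (X []) ∧ ∀ a, Emp Φ (ch X a) := by
  unfold Emp
  rw [all_iff]
  rfl

lemma one_iff (Φ : R → Prop) (X : Lb k R) : One Φ X ↔
    (Φ (X []) ∧ ∀ a, Emp Φ (ch X a)) ∨
    (¬ Φ (X []) ∧ ∃ a, One Φ (ch X a) ∧ ∀ b, b ≠ a → Emp Φ (ch X b)) := by
  constructor
  · rintro ⟨v, hv, hu⟩
    rcases eq_nil_or_snoc v with rfl | ⟨w, a, rfl⟩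
    · left
      refine ⟨hv, fun a w hw => ?_⟩
      have := hu _ hw
      simp at this
    · right
      refine ⟨?_, a, ⟨w, hv, ?_⟩, ?_⟩
      · intro h
        have := hu _ h
        simp at this
      · intro w' hw'
        exact (snoc_inj (hu _ hw')).1
      · intro b hb w' hw'
        exact hb (snoc_inj (hu _ hw')).2
  · rintro (⟨h1, h2⟩ | ⟨h1, a, ⟨w, hw, hu⟩, h3⟩)
    · refine ⟨[], h1, ?_⟩
      intro v hv
      rcases eq_nil_or_snoc v with rfl | ⟨w, a, rfl⟩
      · rfl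
      · exact absurd hv (h2 a w)
    · refine ⟨w ++ [a], hw, ?_⟩
      intro v hv
      rcases eq_nil_or_snoc v with rfl | ⟨w', b, rfl⟩
      · exact absurd hv h1
      · by_cases hb : b = a
        · subst hb
          rw [hu w' hv]
        · exact absurd hv (h3 b hb w')

lemma cmp_one (Φ : R → Prop) : Cmp (fun X : Lb k R => (Emp Φ X, One Φ X)) := by
  intro X X' h0 h1
  have e1 : ∀ a, Emp Φ (ch X a) ↔ Emp Φ (ch X' a) := fun a =>
    iff_of_eq (Prod.ext_iff.1 (h1 a)).1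
  have e2 : ∀ a, One Φ (ch X a) ↔ One Φ (ch X' a) := fun a =>
    iff_of_eq (Prod.ext_iff.1 (h1 a)).2
  refine Prod.ext ?_ ?_
  · apply propext
    show Emp Φ X ↔ Emp Φ X'
    rw [emp_iff, emp_iff Φ X', h0]
    simp only [e1]
  · apply propext
    show One Φ X ↔ One Φ X'
    rw [one_iff, one_iff Φ X', h0]
    simp only [e1, e2]

lemma tree_iff (c : List (Lt k)) (T : Set (Vx k)) : Tree c T ↔ [] ∈ T ∧ Red c ∧
    ∀ a, (∀ w, w ∉ child T a) ∨ (Tree [a] (child T a) ∧ Red ([a] ++ c)) := by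
  constructor
  · intro h
    refine ⟨h.nil_mem, h.red _ h.nil_mem, fun a => ?_⟩
    by_cases hw : ∃ w, w ∈ child T a
    · right
      obtain ⟨w, hw⟩ := hw
      have ha := h.single_mem hw
      exact ⟨h.child ha, h.red _ ha⟩
    · left
      push Not at hw
      exact hw
  · rintro ⟨h1, h2, h3⟩
    constructor
    · exact h1
    · intro x u hu
      rcases eq_nil_or_snoc u with rfl | ⟨w, a, rfl⟩
      · exact h1
      · rcases h3 a with h | ⟨h4, _⟩
        · exact absurd (show (x :: w) ∈ child T a from hu) (h _)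
        · exact h4.tail x w hu
    · intro u hu
      rcases eq_nil_or_snoc u with rfl | ⟨w, a, rfl⟩
      · exact h2
      · rcases h3 a with h | ⟨h4, h5⟩
        · exact absurd (show w ∈ child T a from hu) (h _)
        · exact red_glue (h4.red w hu) h5

lemma cmp_tree (Φ : R → Prop) : Cmp (fun X : Lb k R =>
    (Emp Φ X, fun c : Option (Lt k) => Tree c.toList {v | Φ (X v)})) := by
  intro X X' h0 h1
  have e1 : ∀ a, Emp Φ (ch X a) ↔ Emp Φ (ch X' a) := fun a =>
    iff_of_eq (Prod.ext_iff.1 (h1 a)).1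
  have e2 : ∀ a c, Tree (Option.toList c) {v | Φ (ch X a v)} ↔
      Tree (Option.toList c) {v | Φ (ch X' a v)} := fun a c =>
    iff_of_eq (congrFun (Prod.ext_iff.1 (h1 a)).2 c)
  refine Prod.ext ?_ ?_
  · apply propext
    show Emp Φ X ↔ Emp Φ X'
    rw [emp_iff, emp_iff Φ X', h0]
    simp only [e1]
  · funext c
    apply propext
    show Tree c.toList {v | Φ (X v)} ↔ Tree c.toList {v | Φ (X' v)}
    rw [tree_iff, tree_iff _ {v | Φ (X' v)}]
    have e3 : ([] : Vx k) ∈ {v | Φ (X v)} ↔ ([] : Vx k) ∈ {v | Φ (X' v)} := by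
      show Φ (X []) ↔ Φ (X' [])
      rw [h0]
    rw [e3]
    refine and_congr_right fun _ => and_congr_right fun _ => forall_congr' fun a => ?_
    exact or_congr (e1 a) (and_congr (e2 a (some a)) Iff.rfl)

end Pool.Agent.H395R4.Rec
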