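import Pool.Agent.H395R4.RecA

set_option autoImplicit false

namespace Pool.Agent.H395R4.Rec

open Relation Pool.Agent.H395R3.Fim

variable {k : ℕ} {Q : Type}

/-- a step inside `D` along the edges of the rooted tree -/
def stp (δ : Q → Lt k → Q → Prop) (D : Set (Vx k)) (z z' : Vx k × Q) : Prop :=
  z.1 ∈ D ∧ z'.1 ∈ D ∧ ((∃ x, δ z.2 x z'.2 ∧ z'.1 = x :: z.1) ∨
    (∃ x, δ z.2 (inv x) z'.2 ∧ z.1 = x :: z'.1))

/-- reachability inside `D` -/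
def Rc (δ : Q → Lt k → Q → Prop) (D : Set (Vx k)) : Vx k × Q → Vx k × Q → Prop :=
  ReflTransGen (stp δ D)

section
variable {δ : Q → Lt k → Q → Prop} {D : Set (Vx k)}

lemma stp_lift {a : Lt k} {z z' : Vx k × Q}
    (h : stp δ (child D a) z z') : stp δ D (up a z) (up a z') := by
  obtain ⟨h1, h2, h3⟩ := h
  refine ⟨h1, h2, ?_⟩
  rcases h3 with ⟨x, h3, h4⟩ | ⟨x, h3, h4⟩
  · left
    refine ⟨x, h3, ?_⟩
    show z'.1 ++ [a] = x :: (z.1 ++ [a])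
    rw [h4]; rfl
  · right
    refine ⟨x, h3, ?_⟩
    show z.1 ++ [a] = x :: (z'.1 ++ [a])
    rw [h4]; rfl

lemma rc_lift {a : Lt k} {z z' : Vx k × Q}
    (h : Rc δ (child D a) z z') : Rc δ D (up a z) (up a z') := by
  unfold Rc at *
  exact ReflTransGen.lift (up a) (fun _ _ h => stp_lift h) _ _ h

/-- steps out of a point of a child -/
lemma stp_child {w : Vx k} {a : Lt k} {s : Q} {z : Vx k × Q} (h : stp δ D (w ++ [a], s) z) :
    (∃ u, z.1 = u ++ [a] ∧ stp δ (child D a) (w, s) (u, z.2)) ∨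
    (w = [] ∧ z.1 = [] ∧ [] ∈ D ∧ [a] ∈ D ∧ δ s (inv a) z.2) := by
  obtain ⟨h1, h2, ⟨x, h3, h4⟩ | ⟨x, h3, h4⟩⟩ := h
  · left
    refine ⟨x :: w, h4, h1, ?_, Or.inl ⟨x, h3, rfl⟩⟩
    show (x :: w) ++ [a] ∈ D
    have : z.1 = (x :: w) ++ [a] := h4
    rw [← this]; exact h2
  · cases w with
    | nil =>
      right
      simp only [List.nil_append, List.cons.injEq] at h4
      obtain ⟨e1, e2⟩ := h4
      subst e1
      refine ⟨rfl, e2.symm, ?_, h1, h3⟩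
      rw [← e2] at h2; exact h2
    | cons y t =>
      left
      simp only [List.cons_append, List.cons.injEq] at h4
      obtain ⟨e1, e2⟩ := h4
      subst e1
      refine ⟨t, e2.symm, h1, ?_, Or.inr ⟨y, h3, rfl⟩⟩
      show t ++ [a] ∈ D
      rw [e2]; exact h2

/-- excursions from the root -/
def Lp (δ : Q → Lt k → Q → Prop) (D : Set (Vx k)) (q q' : Q) : Prop :=
  ∃ a p p', [] ∈ D ∧ [a] ∈ D ∧ δ q a p ∧ Rc δ (child D a) ([], p) ([], p') ∧ δ p' (inv a) q'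

lemma rc_root (q : Q) {z : Vx k × Q} (h : Rc δ D ([], q) z) :
    (z.1 = [] ∧ ReflTransGen (Lp δ D) q z.2) ∨
    ∃ a w r p, [] ∈ D ∧ [a] ∈ D ∧ z.1 = w ++ [a] ∧ ReflTransGen (Lp δ D) q r ∧ δ r a p ∧
      Rc δ (child D a) ([], p) (w, z.2) := by
  unfold Rc at h
  induction h with
  | refl => left; exact ⟨rfl, ReflTransGen.refl⟩
  | @tail z z' _ hs ih =>
    rcases ih with ⟨h5, h6⟩ | ⟨a, w, r, p, h0, h5, h6, h7, h8, h9⟩
    · obtain ⟨h1, h2, ⟨x, h3, h4⟩ | ⟨x, h3, h4⟩⟩ := hs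
      · right
        rw [h5] at h4 h1
        refine ⟨x, [], z.2, z'.2, h1, ?_, by rw [h4]; rfl, h6, h3, ReflTransGen.refl⟩
        rw [← h4]; exact h2
      · rw [h5] at h4
        simp at h4
    · have hs' : stp δ D (w ++ [a], z.2) z' := by
        rw [← h6]; exact hs
      rcases stp_child hs' with ⟨u, e1, e2⟩ | ⟨e1, e2, e3, e4, e5⟩
      · right
        exact ⟨a, u, r, p, h0, h5, e1, h7, h8, ReflTransGen.tail h9 e2⟩
      · left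
        refine ⟨e2, h7.tail ⟨a, p, z.2, e3, e4, h8, ?_, e5⟩⟩
        rw [e1] at h9; exact h9

lemma rc_child {w : Vx k} {a : Lt k} {s : Q} {z : Vx k × Q} (h : Rc δ D (w ++ [a], s) z) :
    (∃ u, z.1 = u ++ [a] ∧ Rc δ (child D a) (w, s) (u, z.2)) ∨
    ∃ q q', Rc δ (child D a) (w, s) ([], q) ∧ [] ∈ D ∧ [a] ∈ D ∧ δ q (inv a) q' ∧
      Rc δ D ([], q') z := by
  unfold Rc at h
  induction h with
  | refl => left; exact ⟨w, rfl, ReflTransGen.refl⟩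
  | @tail z z' _ hs ih =>
    rcases ih with ⟨u, h5, h6⟩ | ⟨q, q', h5, h6, h7, h8, h9⟩
    · have hs' : stp δ D (u ++ [a], z.2) z' := by
        rw [← h5]; exact hs
      rcases stp_child hs' with ⟨v, e1, e2⟩ | ⟨e1, e2, e3, e4, e5⟩
      · left
        exact ⟨v, e1, ReflTransGen.tail h6 e2⟩
      · right
        refine ⟨z.2, z'.2, ?_, e3, e4, e5, ?_⟩
        · rw [e1] at h6; exact h6
        · have : z' = ([], z'.2) := by rw [← e2]
          rw [this]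
          exact ReflTransGen.refl
    · right
      exact ⟨q, q', h5, h6, h7, h8, ReflTransGen.tail h9 hs⟩

lemma stp_down {a : Lt k} (h0 : [] ∈ D) (ha : [a] ∈ D) {q p : Q} (h : δ q a p) :
    stp δ D ([], q) ([a], p) := ⟨h0, ha, Or.inl ⟨a, h, rfl⟩⟩

lemma stp_up {a : Lt k} (h0 : [] ∈ D) (ha : [a] ∈ D) {q p : Q} (h : δ q (inv a) p) :
    stp δ D ([a], q) ([], p) := ⟨ha, h0, Or.inr ⟨a, h, rfl⟩⟩

/-- root relation -/
def RL (δ : Q → Lt k → Q → Prop) (D : Set (Vx k)) (p q : Q) : Prop := Rc δ D ([], p) ([], q)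

lemma lp_rc {q q' : Q} (h : Lp δ D q q') : RL δ D q q' := by
  obtain ⟨a, p, p', h0, ha, h1, h2, h3⟩ := h
  have h4 : Rc δ D ([], q) ([a], p) := ReflTransGen.single (stp_down h0 ha h1)
  have h5 : Rc δ D ([a], p) ([a], p') := rc_lift h2
  have h6 : Rc δ D ([a], p') ([], q') := ReflTransGen.single (stp_up h0 ha h3)
  exact (ReflTransGen.trans h4 h5).trans h6

lemma RL_iff {p q : Q} : RL δ D p q ↔ ReflTransGen (Lp δ D) p q := by
  constructor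
  · intro h
    rcases rc_root p h with ⟨_, h1⟩ | ⟨a, w, r, p', _, h5, h6, _⟩
    · exact h1
    · simp at h6
  · intro h
    induction h with
    | refl => exact ReflTransGen.refl
    | tail _ h1 ih => exact ReflTransGen.trans ih (lp_rc h1)

lemma in_iff' {w : Vx k} {a : Lt k} {p s : Q} :
    Rc δ D ([], p) (w ++ [a], s) ↔
      ∃ r p', RL δ D p r ∧ [] ∈ D ∧ [a] ∈ D ∧ δ r a p' ∧
        Rc δ (child D a) ([], p') (w, s) := by
  constructor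
  · intro h
    rcases rc_root p h with ⟨h0, h1⟩ | ⟨b, w', r, p', h4, h5, h6, h7, h8, h9⟩
    · simp at h0
    · obtain ⟨h11, h12⟩ := snoc_inj h6
      subst h11
      subst h12
      exact ⟨r, p', RL_iff.2 h7, h4, h5, h8, h9⟩
  · rintro ⟨r, p', h1, h0, ha, h2, h3⟩
    refine ReflTransGen.trans h1 (ReflTransGen.head (stp_down h0 ha h2) ?_)
    exact rc_lift h3

lemma out_iff' {w : Vx k} {a : Lt k} {q s : Q} :
    Rc δ D (w ++ [a], s) ([], q) ↔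
      ∃ q1 q2, Rc δ (child D a) (w, s) ([], q1) ∧ [] ∈ D ∧ [a] ∈ D ∧ δ q1 (inv a) q2 ∧
        RL δ D q2 q := by
  constructor
  · intro h
    rcases rc_child h with ⟨u, h1, _⟩ | ⟨q1, q2, h1, h2, h3, h4, h5⟩
    · simp at h1
    · exact ⟨q1, q2, h1, h2, h3, h4, h5⟩
  · rintro ⟨q1, q2, h1, h0, ha, h2, h3⟩
    have h4 : Rc δ D (w ++ [a], s) ([a], q1) := rc_lift h1
    exact ReflTransGen.trans h4 (ReflTransGen.head (stp_up h0 ha h2) h3)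

lemma con_iff {w : Vx k} {a : Lt k} {s : Q} {z : Vx k × Q} :
    Rc δ D (w ++ [a], s) z ↔
      (∃ u, z.1 = u ++ [a] ∧ Rc δ (child D a) (w, s) (u, z.2)) ∨
      ∃ q1 q2, Rc δ (child D a) (w, s) ([], q1) ∧ [] ∈ D ∧ [a] ∈ D ∧ δ q1 (inv a) q2 ∧
        Rc δ D ([], q2) z := by
  constructor
  · exact rc_child
  · rintro (⟨u, h1, h2⟩ | ⟨q1, q2, h1, h0, ha, h2, h3⟩)
    · have h3 := rc_lift h2
      have h4 : z = up a (u, z.2) := Prod.ext h1 rfl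
      rw [h4]
      exact h3
    · have h4 : Rc δ D (w ++ [a], s) ([a], q1) := rc_lift h1
      exact ReflTransGen.trans h4 (ReflTransGen.head (stp_up h0 ha h2) h3)

end

/-- labels: membership in `D` and states of the marked points -/
abbrev BL (ι Q : Type) := Prop × (ι → Set Q)

/-- base types -/
abbrev BT (ι Q : Type) := Prop × Set (Q × Q) × Set (ι × Q) × Set (ι × Q) × Set (ι × ι)

variable {ι : Type}

/-- the domain -/
def dom (X : Lb k (BL ι Q)) : Set (Vx k) := {v | (X v).1}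
/-- the marked points -/
def pts (X : Lb k (BL ι Q)) (i : ι) : Set (Vx k × Q) := {z | z.2 ∈ (X z.1).2 i}

/-- marked points reachable from the root -/
def InS (δ : Q → Lt k → Q → Prop) (X : Lb k (BL ι Q)) : Set (ι × Q) :=
  {e | ∃ z ∈ pts X e.1, Rc δ (dom X) ([], e.2) z}
/-- marked points reaching the root -/
def OutS (δ : Q → Lt k → Q → Prop) (X : Lb k (BL ι Q)) : Set (ι × Q) :=
  {e | ∃ z ∈ pts X e.1, Rc δ (dom X) z ([], e.2)}
/-- reachability among marked points -/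
def ConS (δ : Q → Lt k → Q → Prop) (X : Lb k (BL ι Q)) : Set (ι × ι) :=
  {e | ∃ z ∈ pts X e.1, ∃ z' ∈ pts X e.2, Rc δ (dom X) z z'}

/-- the base invariant -/
def base (δ : Q → Lt k → Q → Prop) (X : Lb k (BL ι Q)) : BT ι Q :=
  ((X []).1, {e | RL δ (dom X) e.1 e.2}, InS δ X, OutS δ X, ConS δ X)

section
variable {δ : Q → Lt k → Q → Prop}

lemma mem_InS (X : Lb k (BL ι Q)) (i : ι) (p : Q) : (i, p) ∈ InS δ X ↔
    (∃ s ∈ (X []).2 i, RL δ (dom X) p s) ∨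
    ∃ a r p', RL δ (dom X) p r ∧ (X []).1 ∧ (X [a]).1 ∧ δ r a p' ∧ (i, p') ∈ InS δ (ch X a) := by
  constructor
  · rintro ⟨⟨v, s⟩, h1, h2⟩
    rcases eq_nil_or_snoc v with rfl | ⟨w, a, rfl⟩
    · exact Or.inl ⟨s, h1, h2⟩
    · obtain ⟨r, p', h3, h4, h5, h6, h7⟩ := in_iff'.1 h2
      exact Or.inr ⟨a, r, p', h3, h4, h5, h6, (w, s), h1, h7⟩
  · rintro (⟨s, h1, h2⟩ | ⟨a, r, p', h3, h4, h5, h6, ⟨w, s⟩, h1, h7⟩)
    · exact ⟨([], s), h1, h2⟩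
    · exact ⟨(w ++ [a], s), h1, in_iff'.2 ⟨r, p', h3, h4, h5, h6, h7⟩⟩

lemma mem_OutS (X : Lb k (BL ι Q)) (i : ι) (q : Q) : (i, q) ∈ OutS δ X ↔
    (∃ s ∈ (X []).2 i, RL δ (dom X) s q) ∨
    ∃ a q1 q2, (i, q1) ∈ OutS δ (ch X a) ∧ (X []).1 ∧ (X [a]).1 ∧ δ q1 (inv a) q2 ∧
      RL δ (dom X) q2 q := by
  constructor
  · rintro ⟨⟨v, s⟩, h1, h2⟩
    rcases eq_nil_or_snoc v with rfl | ⟨w, a, rfl⟩
    · exact Or.inl ⟨s, h1, h2⟩
    · obtain ⟨q1, q2, h3, h4, h5, h6, h7⟩ := out_iff'.1 h2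
      exact Or.inr ⟨a, q1, q2, ⟨(w, s), h1, h3⟩, h4, h5, h6, h7⟩
  · rintro (⟨s, h1, h2⟩ | ⟨a, q1, q2, ⟨⟨w, s⟩, h1, h3⟩, h4, h5, h6, h7⟩)
    · exact ⟨([], s), h1, h2⟩
    · exact ⟨(w ++ [a], s), h1, out_iff'.2 ⟨q1, q2, h3, h4, h5, h6, h7⟩⟩

lemma mem_ConS (X : Lb k (BL ι Q)) (i j : ι) : (i, j) ∈ ConS δ X ↔
    (∃ s ∈ (X []).2 i, (j, s) ∈ InS δ X) ∨
    (∃ a, (i, j) ∈ ConS δ (ch X a)) ∨
    ∃ a q1 q2, (i, q1) ∈ OutS δ (ch X a) ∧ (X []).1 ∧ (X [a]).1 ∧ δ q1 (inv a) q2 ∧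
      (j, q2) ∈ InS δ X := by
  constructor
  · rintro ⟨⟨v, s⟩, h1, z', h2, h3⟩
    rcases eq_nil_or_snoc v with rfl | ⟨w, a, rfl⟩
    · exact Or.inl ⟨s, h1, z', h2, h3⟩
    · rcases con_iff.1 h3 with ⟨u, h4, h5⟩ | ⟨q1, q2, h4, h5, h6, h7, h8⟩
      · right; left
        refine ⟨a, (w, s), h1, (u, z'.2), ?_, h5⟩
        show z'.2 ∈ (X (u ++ [a])).2 j
        rw [← h4]; exact h2
      · right; right
        exact ⟨a, q1, q2, ⟨(w, s), h1, h4⟩, h5, h6, h7, z', h2, h8⟩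
  · rintro (⟨s, h1, z', h2, h3⟩ | ⟨a, ⟨w, s⟩, h1, ⟨u, t⟩, h2, h3⟩ |
      ⟨a, q1, q2, ⟨⟨w, s⟩, h1, h4⟩, h5, h6, h7, z', h2, h8⟩)
    · exact ⟨([], s), h1, z', h2, h3⟩
    · exact ⟨(w ++ [a], s), h1, (u ++ [a], t), h2, con_iff.2 (Or.inl ⟨u, rfl, h3⟩)⟩
    · exact ⟨(w ++ [a], s), h1, z', h2, con_iff.2 (Or.inr ⟨q1, q2, h4, h5, h6, h7, h8⟩)⟩

theorem cmp_base : Cmp (base δ : Lb k (BL ι Q) → BT ι Q) := by
  intro X X' h0 h1
  have r1 : ∀ a, (X [a]).1 ↔ (X' [a]).1 := fun a => iff_of_eq (Prod.ext_iff.1 (h1 a)).1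
  have r2 : ∀ a p q, RL δ (dom (ch X a)) p q ↔ RL δ (dom (ch X' a)) p q := fun a p q => by
    have h2 : {e : Q × Q | RL δ (dom (ch X a)) e.1 e.2} = {e | RL δ (dom (ch X' a)) e.1 e.2} :=
      (Prod.ext_iff.1 (Prod.ext_iff.1 (h1 a)).2).1
    exact iff_of_eq (congrArg (fun S : Set (Q × Q) => (p, q) ∈ S) h2)
  have r3 : ∀ a, InS δ (ch X a) = InS δ (ch X' a) := fun a =>
    (Prod.ext_iff.1 (Prod.ext_iff.1 (Prod.ext_iff.1 (h1 a)).2).2).1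
  have r4 : ∀ a, OutS δ (ch X a) = OutS δ (ch X' a) := fun a =>
    (Prod.ext_iff.1 (Prod.ext_iff.1 (Prod.ext_iff.1 (Prod.ext_iff.1 (h1 a)).2).2).2).1
  have r5 : ∀ a, ConS δ (ch X a) = ConS δ (ch X' a) := fun a =>
    (Prod.ext_iff.1 (Prod.ext_iff.1 (Prod.ext_iff.1 (Prod.ext_iff.1 (h1 a)).2).2).2).2
  have hLp : Lp δ (dom X) = Lp δ (dom X') := by
    funext q q'
    apply propext
    show (∃ a p p', (X []).1 ∧ (X [a]).1 ∧ δ q a p ∧ RL δ (dom (ch X a)) p p' ∧ δ p' (inv a) q')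
      ↔ (∃ a p p', (X' []).1 ∧ (X' [a]).1 ∧ δ q a p ∧ RL δ (dom (ch X' a)) p p' ∧
        δ p' (inv a) q')
    simp only [h0, r1, r2]
  have hRL : ∀ p q, RL δ (dom X) p q ↔ RL δ (dom X') p q := by
    intro p q
    rw [RL_iff, RL_iff, hLp]
  have hIn : InS δ X = InS δ X' := by
    ext ⟨i, p⟩
    rw [mem_InS, mem_InS]
    simp only [h0, r1, r3, hRL]
  have hOut : OutS δ X = OutS δ X' := by
    ext ⟨i, p⟩
    rw [mem_OutS, mem_OutS]
    simp only [h0, r1, r4, hRL]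
  have hCon : ConS δ X = ConS δ X' := by
    ext ⟨i, j⟩
    rw [mem_ConS, mem_ConS]
    simp only [h0, r1, r4, r5, hIn]
  refine Prod.ext ?_ (Prod.ext ?_ (Prod.ext hIn (Prod.ext hOut hCon)))
  · show (X []).1 = (X' []).1
    rw [h0]
  · show {e : Q × Q | RL δ (dom X) e.1 e.2} = {e | RL δ (dom X') e.1 e.2}
    ext e
    exact hRL e.1 e.2

end

end Pool.Agent.H395R4.Rec
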