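import Pool.Agent.H395R4.RecB

set_option autoImplicit false

namespace Pool.Agent.H395R4.Rec

open Relation Pool.Agent.H395R3.Fim

variable {k : ℕ} {Q : Type}

/-- labels of `(D, p, h)` -/
abbrev L3 := Prop × Prop × Prop
/-- labels of two marked states -/
abbrev LA (Q : Type) := Option Q × Option Q

/-- base labels -/
def phi (q0 : Q) (F : Set Q) (r : (L3 × Set Q) × LA Q) : BL (Fin 4) Q :=
  (r.1.1.1, fun i => match i with
    | 0 => {q | r.2.1 = some q}
    | 1 => {q | r.2.2 = some q}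
    | 2 => {q | r.1.1.2.1 ∧ q = q0}
    | 3 => {q | r.1.1.2.2 ∧ q ∈ F})

/-- innermost types -/
abbrev AA (Q : Type) := BT (Fin 4) Q × (Prop × Prop) × (Prop × Prop) × Prop
/-- next types -/
abbrev AZ (Q : Type) := Set (AA Q) × Prop
/-- types of `(D, p, h)` -/
abbrev AK (Q : Type) := Set (AZ Q)

/-- pointwise condition of innermost level -/
def subL (r : (L3 × Set Q) × LA Q) : Prop :=
  (∀ q, r.2.1 = some q → q ∈ r.1.2) ∧ (∀ q, r.2.2 = some q → q ∈ r.1.2)

/-- innermost invariant -/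
def rhoA (δ : Q → Lt k → Q → Prop) (q0 : Q) (F : Set Q)
    (X : Lb k ((L3 × Set Q) × LA Q)) : AA Q :=
  (base δ (fun v => phi q0 F (X v)),
    (Emp (fun r : (L3 × Set Q) × LA Q => r.2.1 ≠ none) X,
      One (fun r : (L3 × Set Q) × LA Q => r.2.1 ≠ none) X),
    (Emp (fun r : (L3 × Set Q) × LA Q => r.2.2 ≠ none) X,
      One (fun r : (L3 × Set Q) × LA Q => r.2.2 ≠ none) X),
    ∀ v, subL (X v))

lemma cmp_rhoA (δ : Q → Lt k → Q → Prop) (q0 : Q) (F : Set Q) : Cmp (rhoA δ q0 F) :=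
  (cmp_base.lab (phi q0 F)).pair ((cmp_one _).pair ((cmp_one _).pair (cmp_all _)))

/-- cover condition -/
def covL (r : L3 × Set Q) : Prop := r.1.1 ↔ r.2.Nonempty

/-- middle invariant -/
def rhoZ (δ : Q → Lt k → Q → Prop) (q0 : Q) (F : Set Q) (X : Lb k (L3 × Set Q)) : AZ Q :=
  (exq (none, none) (rhoA δ q0 F) X, ∀ v, covL (X v))

lemma cmp_rhoZ (δ : Q → Lt k → Q → Prop) (q0 : Q) (F : Set Q) : Cmp (rhoZ δ q0 F) :=
  (Cmp.exq _ (cmp_rhoA δ q0 F)).pair (cmp_all _)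

/-- type of `(D, p, h)` -/
def kap (δ : Q → Lt k → Q → Prop) (q0 : Q) (F : Set Q) (X : Lb k L3) : AK Q :=
  exq ∅ (rhoZ δ q0 F) X

lemma cmp_kap (δ : Q → Lt k → Q → Prop) (q0 : Q) (F : Set Q) : Cmp (kap δ q0 F) :=
  Cmp.exq _ (cmp_rhoZ δ q0 F)

/-- accepting types -/
def KpT (t : AK Q) : Prop := ∃ z ∈ t, z.2 ∧ ∀ e ∈ z.1, e.2.1.2 → e.2.2.1.2 → e.2.2.2 →
  ((((0 : Fin 4), (1 : Fin 4)) ∈ e.1.2.2.2.2 ∨ ((1 : Fin 4), (0 : Fin 4)) ∈ e.1.2.2.2.2) ∧
    ((2 : Fin 4), (0 : Fin 4)) ∈ e.1.2.2.2.2 ∧ ((0 : Fin 4), (3 : Fin 4)) ∈ e.1.2.2.2.2)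

/-- semantic acceptance -/
def Sem (δ : Q → Lt k → Q → Prop) (q0 : Q) (F : Set Q) (D : Set (Vx k)) (p h : Vx k) : Prop :=
  ∃ Z : Set (Vx k × Q), (∀ z ∈ Z, z.1 ∈ D) ∧ (∀ u ∈ D, ∃ s, (u, s) ∈ Z) ∧
    (∀ z ∈ Z, ∀ z' ∈ Z, Rc δ D z z' ∨ Rc δ D z' z) ∧
    (∀ z ∈ Z, Rc δ D (p, q0) z) ∧ (∀ z ∈ Z, ∃ f ∈ F, Rc δ D z (h, f))

/-- labeling of `(D, p, h)` -/
def lb3 (D : Set (Vx k)) (p h : Vx k) : Lb k L3 := fun v => (v ∈ D, v = p, v = h)

/-- labeling of one marked state -/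
noncomputable def pin (z : Vx k × Q) : Lb k (Option Q) := by
  classical
  exact fun v => if v = z.1 then some z.2 else none

lemma pin_eq (z : Vx k × Q) (v : Vx k) (q : Q) : pin z v = some q ↔ (v, q) = z := by
  unfold pin
  split_ifs with h
  · simp only [Option.some.injEq]
    constructor
    · intro h2; exact Prod.ext h h2.symm
    · intro h2; rw [← h2]
  · simp only [reduceCtorEq, false_iff]
    intro h2
    exact h (Prod.ext_iff.1 h2).1

lemma pin_ne (z : Vx k × Q) (v : Vx k) : pin z v ≠ none ↔ v = z.1 := by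
  unfold pin
  split_ifs with h
  · simp [h]
  · simp [h]

lemma one_pin {z : Vx k × Q} {X : Lb k L3} {Z : Lb k (Set Q)} {B : Lb k (Option Q)} :
    One (fun r : (L3 × Set Q) × LA Q => r.2.1 ≠ none)
      (fun v => ((X v, Z v), (pin z v, B v))) :=
  ⟨z.1, (pin_ne z _).2 rfl, fun v' hv' => (pin_ne z v').1 hv'⟩

lemma one_pin' {z : Vx k × Q} {X : Lb k L3} {Z : Lb k (Set Q)} {A : Lb k (Option Q)} :
    One (fun r : (L3 × Set Q) × LA Q => r.2.2 ≠ none)
      (fun v => ((X v, Z v), (A v, pin z v))) :=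
  ⟨z.1, (pin_ne z _).2 rfl, fun v' hv' => (pin_ne z v').1 hv'⟩

/-- extraction of a single marked point -/
lemma single_of_one {A : Lb k (Option Q)} (h : ∃ v, A v ≠ none ∧ ∀ v', A v' ≠ none → v' = v) :
    ∃ z : Vx k × Q, ∀ v q, A v = some q ↔ (v, q) = z := by
  obtain ⟨v, h1, h2⟩ := h
  obtain ⟨s, hs⟩ := Option.ne_none_iff_exists'.1 h1
  refine ⟨(v, s), fun v' q => ?_⟩
  constructor
  · intro h3
    have h4 := h2 v' (by rw [h3]; simp)
    subst h4
    rw [h3] at hs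
    simp only [Option.some.injEq] at hs
    rw [hs]
  · intro h3
    obtain ⟨e1, e2⟩ := Prod.ext_iff.1 h3
    simp only at e1 e2
    rw [e1, e2]; exact hs

/-- the decoration as a labeling -/
def zl (Z : Set (Vx k × Q)) : Lb k (Set Q) := fun v => {s | (v, s) ∈ Z}

lemma kpt_iff (δ : Q → Lt k → Q → Prop) (q0 : Q) (F : Set Q) {D : Set (Vx k)} {n : ℕ}
    (hD : ∀ v ∈ D, v.length < n) (p h : Vx k) :
    KpT (kap δ q0 F (lb3 D p h)) ↔ Sem δ q0 F D p h := by
  constructor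
  · rintro ⟨z, ⟨Zl, m, hm, rfl⟩, h1, h2⟩
    have h1' : ∀ v, v ∈ D ↔ (Zl v).Nonempty := h1
    have key : ∀ z z' : Vx k × Q, z.2 ∈ Zl z.1 → z'.2 ∈ Zl z'.1 →
        ((Rc δ D z z' ∨ Rc δ D z' z) ∧ Rc δ D (p, q0) z ∧ ∃ f ∈ F, Rc δ D z (h, f)) := by
      intro z z' hz hz'
      have h3 := h2 (rhoA δ q0 F (fun v => ((lb3 D p h v, Zl v), (pin z v, pin z' v))))
        ⟨fun v => (pin z v, pin z' v), max (z.1.length + 1) (z'.1.length + 1), by
          intro v hv
          refine Prod.ext ?_ ?_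
          · show pin z v = none
            by_contra hc
            rw [(pin_ne z v).1 hc] at hv
            omega
          · show pin z' v = none
            by_contra hc
            rw [(pin_ne z' v).1 hc] at hv
            omega, rfl⟩ one_pin one_pin' (by
          intro v
          constructor
          · intro q hq
            have := (pin_eq z v q).1 hq
            show q ∈ Zl v
            rw [← this] at hz
            exact hz
          · intro q hq
            have := (pin_eq z' v q).1 hq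
            show q ∈ Zl v
            rw [← this] at hz'
            exact hz')
      obtain ⟨h4, h5, h6⟩ := h3
      refine ⟨?_, ?_, ?_⟩
      · rcases h4 with ⟨y, hy, y', hy', h7⟩ | ⟨y, hy, y', hy', h7⟩
        · left
          have e1 : y = z := (pin_eq z y.1 y.2).1 hy
          have e2 : y' = z' := (pin_eq z' y'.1 y'.2).1 hy'
          rw [e1, e2] at h7
          exact h7
        · right
          have e1 : y = z' := (pin_eq z' y.1 y.2).1 hy
          have e2 : y' = z := (pin_eq z y'.1 y'.2).1 hy'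
          rw [e1, e2] at h7
          exact h7
      · obtain ⟨y, hy, y', hy', h7⟩ := h5
        have e1 : y = (p, q0) := Prod.ext hy.1 hy.2
        have e2 : y' = z := (pin_eq z y'.1 y'.2).1 hy'
        rw [e1, e2] at h7
        exact h7
      · obtain ⟨y, hy, y', hy', h7⟩ := h6
        have e1 : y = z := (pin_eq z y.1 y.2).1 hy
        refine ⟨y'.2, hy'.2, ?_⟩
        have e2 : y' = (h, y'.2) := Prod.ext hy'.1 rfl
        rw [e1, e2] at h7
        exact h7
    refine ⟨{z | z.2 ∈ Zl z.1}, ?_, ?_, ?_, ?_, ?_⟩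
    · intro z hz
      exact (h1' z.1).2 ⟨_, hz⟩
    · intro u hu
      obtain ⟨s, hs⟩ := (h1' u).1 hu
      exact ⟨s, hs⟩
    · intro z hz z' hz'
      exact (key z z' hz hz').1
    · intro z hz
      exact (key z z hz hz).2.1
    · intro z hz
      exact (key z z hz hz).2.2
  · rintro ⟨Z, h1, h2, h3, h4, h5⟩
    refine ⟨_, ⟨zl Z, n, ?_, rfl⟩, ?_, ?_⟩
    · intro v hv
      ext s
      simp only [Set.mem_empty_iff_false, iff_false]
      intro hs
      have := hD v (h1 _ hs)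
      omega
    · intro v
      show v ∈ D ↔ (zl Z v).Nonempty
      constructor
      · intro hv
        obtain ⟨s, hs⟩ := h2 v hv
        exact ⟨s, hs⟩
      · rintro ⟨s, hs⟩
        exact h1 _ hs
    · rintro e ⟨Y, m, hm, rfl⟩ o1 o2 hs
      obtain ⟨z, hz⟩ := single_of_one (A := fun v => (Y v).1) o1
      obtain ⟨z', hz'⟩ := single_of_one (A := fun v => (Y v).2) o2
      have hzZ : z ∈ Z := (hs z.1).1 z.2 ((hz z.1 z.2).2 rfl)
      have hzZ' : z' ∈ Z := (hs z'.1).2 z'.2 ((hz' z'.1 z'.2).2 rfl)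
      have m0 : (z.2 : Q) ∈ (phi q0 F ((lb3 D p h z.1, zl Z z.1), Y z.1)).2 0 :=
        (hz z.1 z.2).2 rfl
      have m1 : (z'.2 : Q) ∈ (phi q0 F ((lb3 D p h z'.1, zl Z z'.1), Y z'.1)).2 1 :=
        (hz' z'.1 z'.2).2 rfl
      refine ⟨?_, ?_, ?_⟩
      · rcases h3 z hzZ z' hzZ' with h6 | h6
        · left
          exact ⟨z, m0, z', m1, h6⟩
        · right
          exact ⟨z', m1, z, m0, h6⟩
      · exact ⟨(p, q0), ⟨rfl, rfl⟩, z, m0, h4 z hzZ⟩
      · obtain ⟨f, hf, h6⟩ := h5 z hzZ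
        exact ⟨z, m0, (h, f), ⟨rfl, hf⟩, h6⟩

end Pool.Agent.H395R4.Rec
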