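import Pool.Agent.H395R4.RecC

set_option autoImplicit false

namespace Pool.Agent.H395R4.Rec

open Relation Pool.Agent.H395R3.Fim

variable {k : ℕ} {Q : Type}

lemma stp_iff {δ : Q → Lt k → Q → Prop} {D : Set (Vx k)} (hD : Tree [] D) (z z' : Vx k × Q) :
    stp δ D z z' ↔ stepD δ D z z' := by
  constructor
  · rintro ⟨h1, h2, ⟨x, h3, h4⟩ | ⟨x, h3, h4⟩⟩
    · refine ⟨h1, h2, x, h3, ?_⟩
      rw [h4]
      cases hz : z.1 with
      | nil => rfl
      | cons y t =>
        rw [push_cons, if_neg]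
        intro hy
        have h5 := hD.red _ h2
        rw [List.append_nil, h4, hz] at h5
        exact (red_cons.1 h5).1 (by rw [hy, inv_inv])
    · refine ⟨h1, h2, inv x, h3, ?_⟩
      rw [h4, push_cons, if_pos (by rw [inv_inv])]
  · rintro ⟨h1, h2, x, h3, h4⟩
    refine ⟨h1, h2, ?_⟩
    cases hz : z.1 with
    | nil =>
      left
      exact ⟨x, h3, by rw [h4, hz]; rfl⟩
    | cons y t =>
      rw [hz, push_cons] at h4
      split_ifs at h4 with hy
      · right
        refine ⟨y, ?_, by rw [h4]⟩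
        rw [hy, inv_inv]; exact h3
      · left
        exact ⟨x, h3, h4⟩

lemma rc_eq {δ : Q → Lt k → Q → Prop} {D : Set (Vx k)} (hD : Tree [] D) :
    Rc δ D = Rch δ D := by
  have : stp δ D = stepD δ D := by
    funext z z'
    exact propext (stp_iff hD z z')
  unfold Rc Rch
  rw [this]

lemma take_mem_vis' (u : Vx k) (w : List (Lt k)) (i : ℕ) : fin u (w.take i) ∈ vis u w :=
  take_mem_vis u w i

lemma run_rch' {δ : Q → Lt k → Q → Prop} {w : List (Lt k)} {st : ℕ → Q} {p : Vx k}
    {D : Set (Vx k)} (hD : ∀ v ∈ vis p w, v ∈ D)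
    (h : ∀ i a, w[i]? = some a → δ (st i) a (st (i + 1))) {i j : ℕ} (hij : i ≤ j)
    (hj : j ≤ w.length) :
    Rch δ D (fin p (w.take i), st i) (fin p (w.take j), st j) := by
  induction j, hij using Nat.le_induction with
  | base => exact ReflTransGen.refl
  | succ j hij ih =>
    refine ReflTransGen.tail (ih (by omega)) ⟨hD _ (take_mem_vis _ _ _),
      hD _ (take_mem_vis _ _ _), w[j], ?_, ?_⟩
    · exact h j w[j] (by rw [List.getElem?_eq_getElem])
    · show fin p (w.take (j + 1)) = push (fin p (w.take j)) w[j]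
      rw [List.take_succ_eq_append_getElem (by omega), fin_append]
      rfl

lemma sem_of_word {δ : Q → Lt k → Q → Prop} {q0 : Q} {F : Set Q} {D : Set (Vx k)}
    (hT : Tree [] D) {p : Vx k} {v : List (Lt k)} (hacc : AccQ δ q0 F v)
    (hD : ∀ y, y ∈ vis p v ↔ y ∈ D) : Sem δ q0 F D p (fin p v) := by
  obtain ⟨f, hf, hp⟩ := hacc
  obtain ⟨st, h1, h2, h3⟩ := (path_iff δ q0 f v).1 hp
  have hr : ∀ i j, i ≤ j → j ≤ v.length →
      Rch δ D (fin p (v.take i), st i) (fin p (v.take j), st j) :=
    fun i j hij hj => run_rch' (fun y hy => (hD y).1 hy) h3 hij hj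
  refine ⟨{z | ∃ i ≤ v.length, z = (fin p (v.take i), st i)}, ?_, ?_, ?_, ?_, ?_⟩
  · rintro z ⟨i, hi, rfl⟩
    exact (hD _).1 (take_mem_vis _ _ _)
  · intro u hu
    obtain ⟨i, hi, h4⟩ := vis_take v u ((hD u).2 hu)
    exact ⟨st i, i, hi, by rw [h4]⟩
  · rintro z ⟨i, hi, rfl⟩ z' ⟨j, hj, rfl⟩
    rw [rc_eq hT]
    rcases le_total i j with h4 | h4
    · left; exact hr i j h4 hj
    · right; exact hr j i h4 hi
  · rintro z ⟨i, hi, rfl⟩
    rw [rc_eq hT]
    have := hr 0 i (Nat.zero_le i) hi
    rw [h1] at this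
    exact this
  · rintro z ⟨i, hi, rfl⟩
    rw [rc_eq hT]
    have := hr i v.length hi le_rfl
    rw [h2, List.take_length] at this
    exact ⟨f, hf, this⟩

lemma word_of_sem [Fintype Q] {δ : Q → Lt k → Q → Prop} {q0 : Q} {F : Set Q} {D : Set (Vx k)}
    {A : Finset (Vx k)} (hDA : D ⊆ A) (hT : Tree [] D) {p h : Vx k} (hp : p ∈ D)
    (hS : Sem δ q0 F D p h) :
    ∃ v, AccQ δ q0 F v ∧ (∀ y, y ∈ vis p v ↔ y ∈ D) ∧ fin p v = h ∧
      v.length ≤ (A.card * Fintype.card Q + 1) * (A.card * Fintype.card Q) := by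
  classical
  obtain ⟨Z, h1, h2, h3, h4, h5⟩ := hS
  rw [rc_eq hT] at h3 h4 h5
  have hsub : Z ⊆ ((A ×ˢ (Finset.univ : Finset Q) : Finset (Vx k × Q)) : Set (Vx k × Q)) := by
    intro z hz
    simp only [Finset.coe_product, Finset.coe_univ, Set.mem_prod, Set.mem_univ, and_true]
    exact hDA (h1 z hz)
  have hfin : Z.Finite := (Finset.finite_toSet _).subset hsub
  have hne : hfin.toFinset.Nonempty := by
    obtain ⟨s, hs⟩ := h2 [] hT.nil_mem
    exact ⟨_, hfin.mem_toFinset.2 hs⟩
  obtain ⟨zm, hzm, hmax⟩ := exists_least (fun z z' => Rch δ D z' z)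
    (fun _ => ReflTransGen.refl) (fun _ _ _ e1 e2 => ReflTransGen.trans e2 e1) hfin.toFinset hne
    (fun z hz z' hz' => (h3 z (hfin.mem_toFinset.1 hz) z' (hfin.mem_toFinset.1 hz')).symm)
  obtain ⟨f, hf, hzf⟩ := h5 zm (hfin.mem_toFinset.1 hzm)
  have hcard : hfin.toFinset.card ≤ A.card * Fintype.card Q := by
    have : hfin.toFinset ⊆ A ×ˢ (Finset.univ : Finset Q) := by
      intro z hz
      have := hsub (hfin.mem_toFinset.1 hz)
      exact_mod_cast this
    calc hfin.toFinset.card ≤ (A ×ˢ (Finset.univ : Finset Q)).card := Finset.card_le_card this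
      _ = A.card * Fintype.card Q := by rw [Finset.card_product, Finset.card_univ]
  obtain ⟨w, k1, k2, k3, k4, k5⟩ := visit_all (δ := δ) hDA _ hfin.toFinset rfl (p, q0) (h, f)
    hp (fun z hz => h1 z (hfin.mem_toFinset.1 hz))
    (fun z hz => h4 z (hfin.mem_toFinset.1 hz))
    (fun z hz => ReflTransGen.trans (hmax z hz) hzf)
    (ReflTransGen.trans (h4 zm (hfin.mem_toFinset.1 hzm)) hzf)
    (fun z hz z' hz' => h3 z (hfin.mem_toFinset.1 hz) z' (hfin.mem_toFinset.1 hz'))
  refine ⟨w, ⟨f, hf, k1⟩, ?_, k2, ?_⟩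
  · intro y
    constructor
    · exact k3 y
    · intro hy
      obtain ⟨s, hs⟩ := h2 y hy
      exact k4 (y, s) (hfin.mem_toFinset.2 hs)
  · exact k5.trans (Nat.mul_le_mul_right _ (by omega))

/-- every tree with a marked vertex comes from a word -/
lemma word_of_tree {D : Set (Vx k)} {A : Finset (Vx k)} (hDA : D ⊆ A) (hT : Tree [] D)
    {h : Vx k} (hh : h ∈ D) :
    ∃ v : List (Lt k), (∀ y, y ∈ vis [] v ↔ y ∈ D) ∧ fin [] v = h ∧
      v.length ≤ (A.card + 1) * A.card := by
  classical
  let δ : Unit → Lt k → Unit → Prop := fun _ _ _ => True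
  have down : ∀ u : Vx k, u ∈ D → Rc δ D ([], ()) (u, ()) := by
    intro u
    induction u with
    | nil => intro _; exact ReflTransGen.refl
    | cons x u ih =>
      intro hu
      have hu' := hT.tail x u hu
      exact ReflTransGen.tail (ih hu') ⟨hu', hu, Or.inl ⟨x, trivial, rfl⟩⟩
  have upw : ∀ u : Vx k, u ∈ D → Rc δ D (u, ()) ([], ()) := by
    intro u
    induction u with
    | nil => intro _; exact ReflTransGen.refl
    | cons x u ih =>
      intro hu
      have hu' := hT.tail x u hu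
      exact ReflTransGen.head ⟨hu, hu', Or.inr ⟨x, trivial, rfl⟩⟩ (ih hu')
  have all : ∀ u ∈ D, ∀ v ∈ D, Rc δ D (u, ()) (v, ()) := fun u hu v hv =>
    ReflTransGen.trans (upw u hu) (down v hv)
  have hS : Sem δ () Set.univ D [] h := by
    refine ⟨{z | z.1 ∈ D}, fun z hz => hz, fun u hu => ⟨(), hu⟩, ?_, ?_, ?_⟩
    · intro z hz z' hz'
      exact Or.inl (all z.1 hz z'.1 hz')
    · intro z hz
      exact all [] hT.nil_mem z.1 hz
    · intro z hz
      exact ⟨(), trivial, all z.1 hz h hh⟩
  obtain ⟨v, _, h2, h3, h4⟩ := word_of_sem hDA hT hT.nil_mem hS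
  refine ⟨v, h2, h3, ?_⟩
  simpa using h4

/-- left translation of the Cayley tree -/
def act (p y : Vx k) : Vx k := fin p y.reverse

lemma act_cons (p : Vx k) (z : Lt k) (t : Vx k) : act p (z :: t) = push (act p t) z := by
  unfold act
  rw [List.reverse_cons, fin_append]
  rfl

lemma act_red {p : Vx k} (hp : Red p) (y : Vx k) : Red (act p y) := red_fin hp _

lemma act_push {p : Vx k} (hp : Red p) (y : Vx k) (x : Lt k) :
    act p (push y x) = push (act p y) x := by
  cases y with
  | nil => rfl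
  | cons z t =>
    rw [push_cons]
    split_ifs with h
    · rw [act_cons, h]
      have := push_push_inv (act_red hp t) (inv x)
      rw [inv_inv] at this
      exact this.symm
    · rw [act_cons]

lemma act_fin {p : Vx k} (hp : Red p) (y : Vx k) (w : List (Lt k)) :
    act p (fin y w) = fin (act p y) w := by
  induction w generalizing y with
  | nil => rfl
  | cons x w ih =>
    rw [fin_cons, ih, act_push hp, fin_cons]

lemma act_vis {p : Vx k} (hp : Red p) (y : Vx k) (w : List (Lt k)) :
    vis (act p y) w = (vis y w).map (act p) := by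
  induction w generalizing y with
  | nil => rfl
  | cons x w ih =>
    rw [vis_cons, vis_cons, List.map_cons, ← ih, act_push hp]

lemma act_nil_right (p : Vx k) : act p [] = p := rfl

lemma act_nil_left {y : Vx k} (hy : Red y) : act [] y = y := by
  induction y with
  | nil => rfl
  | cons z t ih =>
    rw [act_cons, ih (red_tail hy)]
    cases t with
    | nil => rfl
    | cons y t =>
      rw [push_cons, if_neg]
      intro h
      exact (red_cons.1 hy).1 (by rw [h, inv_inv])

/-- inverse vertex -/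
def vinv (p : Vx k) : Vx k := fin [] (winv p.reverse)

lemma act_vinv {p : Vx k} {y : Vx k} (hy : Red y) :
    act (vinv p) (act p y) = y := by
  have hr : Red (vinv p) := red_fin red_nil _
  have h1 : act (vinv p) (act p y) = fin (act (vinv p) p) y.reverse := act_fin hr p y.reverse
  have h2 : act (vinv p) p = [] := by
    have := fin_winv (k := k) red_nil (winv p.reverse)
    rw [winv_winv] at this
    exact this
  rw [h1, h2]
  exact act_nil_left hy

lemma same_shift {p : Vx k} (hp : Red p) (x v : List (Lt k)) :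
    Same x v ↔ (∀ y, y ∈ vis p x ↔ y ∈ vis p v) ∧ fin p x = fin p v := by
  have hv : ∀ w : List (Lt k), vis p w = (vis [] w).map (act p) := fun w => act_vis hp [] w
  have hf : ∀ w : List (Lt k), fin p w = act p (fin [] w) := fun w => (act_fin hp [] w).symm
  have hinj : ∀ y y' : Vx k, Red y → Red y' → act p y = act p y' → y = y' := by
    intro y y' hy hy' h
    rw [← act_vinv (p := p) hy, h, act_vinv hy']
  have hred : ∀ w : List (Lt k), ∀ y ∈ vis ([] : Vx k) w, Red y := fun w =>
    red_of_vis red_nil w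
  constructor
  · rintro ⟨h1, h2⟩
    refine ⟨?_, ?_⟩
    · intro y
      rw [hv, hv, List.mem_map, List.mem_map]
      simp only [h1]
    · rw [hf, hf, h2]
  · rintro ⟨h1, h2⟩
    have aux : ∀ x v : List (Lt k), (∀ y, y ∈ vis p x ↔ y ∈ vis p v) →
        ∀ y, y ∈ vis ([] : Vx k) x → y ∈ vis ([] : Vx k) v := by
      intro x v h1 y hy
      have h3 : act p y ∈ vis p x := by
        rw [hv, List.mem_map]; exact ⟨y, hy, rfl⟩
      rw [h1, hv, List.mem_map] at h3
      obtain ⟨y', h4, h5⟩ := h3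
      have := hinj y' y (hred _ _ h4) (hred _ _ hy) h5
      rw [← this]; exact h4
    refine ⟨fun y => ⟨aux x v h1 y, aux v x (fun y => (h1 y).symm) y⟩, ?_⟩
    rw [hf, hf] at h2
    exact hinj _ _ (red_fin red_nil _) (red_fin red_nil _) h2

/-- membership of (the class of) `x` in the rational subset -/
def InK (δ : Q → Lt k → Q → Prop) (q0 : Q) (F : Set Q) (x : List (Lt k)) : Prop :=
  ∃ v, AccQ δ q0 F v ∧ Same x v

lemma union_tree {D E : Set (Vx k)} (hD : Tree [] D) (hE : Tree [] E) : Tree [] (D ∪ E) where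
  nil_mem := Or.inl hD.nil_mem
  tail := by
    rintro x u (h | h)
    · exact Or.inl (hD.tail x u h)
    · exact Or.inr (hE.tail x u h)
  red := by
    rintro u (h | h)
    · exact hD.red u h
    · exact hE.red u h

lemma fin_winv' (u : List (Lt k)) : fin (fin [] (winv u)) u = [] := by
  have := fin_winv (k := k) red_nil (winv u)
  rw [winv_winv] at this
  exact this

lemma vis_winv' (u : List (Lt k)) (y : Vx k) :
    y ∈ vis (fin [] (winv u)) u ↔ y ∈ vis [] (winv u) := by
  have := mem_vis_winv (k := k) red_nil (winv u) y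
  rw [winv_winv] at this
  exact this

lemma ink_iff [Fintype Q] (δ : Q → Lt k → Q → Prop) (q0 : Q) (F : Set Q) (u w : List (Lt k)) :
    InK δ q0 F (u ++ w) ↔ Sem δ q0 F (mt (winv u) ∪ mt w) (fin [] (winv u)) (fin [] w) := by
  classical
  have hT : Tree [] (mt (winv u) ∪ mt w) := union_tree (mt_tree _) (mt_tree _)
  have hp : Red (fin ([] : Vx k) (winv u)) := red_fin red_nil _
  have e1 : ∀ y, y ∈ vis (fin [] (winv u)) (u ++ w) ↔ y ∈ mt (winv u) ∪ mt w := by
    intro y
    rw [mem_vis_append, fin_winv', vis_winv']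
    rfl
  have e2 : fin (fin [] (winv u)) (u ++ w) = fin [] w := by
    rw [fin_append, fin_winv']
  constructor
  · rintro ⟨v, h1, h2⟩
    rw [same_shift hp] at h2
    obtain ⟨h3, h4⟩ := h2
    rw [← e2, h4]
    exact sem_of_word hT h1 (fun y => by rw [← h3, e1])
  · intro hS
    obtain ⟨v, h1, h2, h3, _⟩ := word_of_sem
      (A := (vis ([] : Vx k) (winv u)).toFinset ∪ (vis ([] : Vx k) w).toFinset)
      (by
        rintro v (hv | hv)
        · simp only [Finset.coe_union, Set.mem_union, Finset.mem_coe, List.mem_toFinset]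
          exact Or.inl hv
        · simp only [Finset.coe_union, Set.mem_union, Finset.mem_coe, List.mem_toFinset]
          exact Or.inr hv)
      hT (Or.inl (fin_mem_vis _ _)) hS
    refine ⟨v, h1, (same_shift hp _ _).2 ⟨fun y => ?_, ?_⟩⟩
    · rw [e1, h2]
    · rw [e2, h3]

/-- bounded search for acceptance -/
lemma ink_bound [Fintype Q] (δ : Q → Lt k → Q → Prop) (q0 : Q) (F : Set Q)
    (x : List (Lt k)) (h : InK δ q0 F x) :
    ∃ v, AccQ δ q0 F v ∧ Same x v ∧ v.length ≤
      ((x.length + 1) * Fintype.card Q + 1) * ((x.length + 1) * Fintype.card Q) := by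
  classical
  obtain ⟨v, h1, h2⟩ := h
  have h3 := acc_to h1
  rw [← mt_congr h2, ← h2.2] at h3
  obtain ⟨w'', g1, g2, g3, g4⟩ := acc_from (A := (vis ([] : Vx k) x).toFinset)
    (by intro v hv; exact List.mem_toFinset.2 hv) (mt_tree x) h3
  refine ⟨w'', g1, ⟨fun v => (g3 v).symm, g2.symm⟩, g4.trans ?_⟩
  have hc : (vis ([] : Vx k) x).toFinset.card ≤ x.length + 1 := by
    refine (List.toFinset_card_le _).trans ?_
    rw [vis_length]
  have h5 := Nat.mul_le_mul_right (Fintype.card Q) hc
  exact Nat.mul_le_mul (by omega) h5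

end Pool.Agent.H395R4.Rec
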