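import Pool.Agent.H395R4.RecD

set_option autoImplicit false

namespace Pool.Agent.H395R4.Rec

open Relation Pool.Agent.H395R3.Fim

variable {k : ℕ} {Q : Type}

/-- labels of a marked tree -/
abbrev LT := Prop × Prop

/-- validity types -/
abbrev AV (k : ℕ) := (Prop × (Option (Lt k) → Prop)) × (Prop × Prop) × Prop

/-- validity invariant -/
def vd (Y : Lb k LT) : AV k :=
  ((Emp (fun r : LT => r.1) Y, fun c : Option (Lt k) => Tree c.toList {v | (Y v).1}),
    (Emp (fun r : LT => r.2) Y, One (fun r : LT => r.2) Y), ∀ v, (Y v).2 → (Y v).1)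

lemma cmp_vd : Cmp (vd : Lb k LT → AV k) :=
  (cmp_tree (fun r : LT => r.1)).pair ((cmp_one (fun r : LT => r.2)).pair
    (cmp_all (fun r : LT => r.2 → r.1)))

/-- valid types -/
def Valid (t : AV k) : Prop := t.1.2 none ∧ t.2.1.2 ∧ t.2.2

/-- the marked tree of a word -/
def tr (w : List (Lt k)) : Lb k LT := fun v => (v ∈ vis [] w, v = fin [] w)

lemma valid_tr (w : List (Lt k)) : Valid (vd (tr w)) := by
  refine ⟨mt_tree w, ⟨fin [] w, rfl, fun v' hv' => hv'⟩, ?_⟩
  intro v hv
  have : v = fin [] w := hv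
  rw [this]
  exact fin_mem_vis _ _

lemma vis_length_le (u : Vx k) (w : List (Lt k)) : ∀ v ∈ vis u w, v.length ≤ u.length + w.length := by
  induction w generalizing u with
  | nil => intro v hv; simp at hv; rw [hv]; simp
  | cons x w ih =>
    intro v hv
    rcases List.mem_cons.1 hv with h | h
    · rw [h]; simp
    · have h1 := ih (push u x) v h
      have h2 : (push u x).length ≤ u.length + 1 := by
        cases u with
        | nil => simp
        | cons y t =>
          rw [push_cons]
          split_ifs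
          · simp only [List.length_cons]; omega
          · simp
      simp only [List.length_cons]
      omega

lemma dep_tr (w : List (Lt k)) : Dep ((False, False) : LT) (w.length + 1) (tr w) := by
  intro v hv
  have h1 : ¬ v ∈ vis ([] : Vx k) w := by
    intro h
    have := vis_length_le [] w v h
    simp only [List.length_nil] at this
    omega
  have h2 : ¬ v = fin ([] : Vx k) w := by
    intro h
    exact h1 (by rw [h]; exact fin_mem_vis _ _)
  exact Prod.ext (propext ⟨fun h => h1 h, fun h => h.elim⟩)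
    (propext ⟨fun h => h2 h, fun h => h.elim⟩)

/-- length bound for words tracing a tree of given depth -/
noncomputable def WW (k n : ℕ) : ℕ := ((words k n).length + 1) * (words k n).length

lemma tr_surj {Y : Lb k LT} (h : Valid (vd Y)) {n : ℕ} (hn : Dep (False, False) n Y) :
    ∃ w : List (Lt k), Y = tr w ∧ w.length ≤ WW k n := by
  classical
  obtain ⟨h1, ⟨g, hg, hu⟩, h3⟩ := h
  have hT : Tree [] {v | (Y v).1} := h1
  obtain ⟨w, e1, e2, e3⟩ := word_of_tree (A := (words k n).toFinset) (D := {v | (Y v).1})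
    (by
      intro v hv
      have : v.length ≤ n := by
        by_contra hc
        have h4 := hn v (by omega)
        have h5 : (Y v).1 := hv
        rw [h4] at h5
        exact h5
      simpa [mem_words] using this) hT (h := g) (h3 g hg)
  refine ⟨w, ?_, ?_⟩
  · funext v
    refine Prod.ext (propext ?_) (propext ?_)
    · exact (e1 v).symm
    · show (Y v).2 ↔ v = fin [] w
      rw [e2]
      constructor
      · exact hu v
      · intro h; rw [h]; exact hg
  · refine e3.trans ?_
    have h5 := List.toFinset_card_le (words k n)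
    exact Nat.mul_le_mul (by omega) h5

/-- labels of level 1 -/
abbrev RX := (Prop × LT) × LT

/-- first acceptance label -/
def ph1 (r : RX × LT) : L3 := (r.1.1.2.1 ∨ r.2.1, r.1.1.2.2, r.2.2)
/-- second acceptance label -/
def ph2 (r : RX × LT) : L3 := (r.1.2.1 ∨ r.2.1, r.1.2.2, r.2.2)

/-- level 1 types -/
abbrev A1 (k : ℕ) (Q : Type) := AV k × AK Q × AK Q

section
variable (δ : Q → Lt k → Q → Prop) (q0 : Q) (F : Set Q)

/-- level 1 invariant -/
def rho1 (X : Lb k (RX × LT)) : A1 k Q :=
  (vd (fun v => (X v).2), kap δ q0 F (fun v => ph1 (X v)), kap δ q0 F (fun v => ph2 (X v)))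

lemma cmp_rho1 : Cmp (rho1 δ q0 F) :=
  (cmp_vd.lab (fun r : RX × LT => r.2)).pair (((cmp_kap δ q0 F).lab ph1).pair
    ((cmp_kap δ q0 F).lab ph2))

/-- intermediate types -/
abbrev AS (k : ℕ) (Q : Type) := AV k × Prop × Set (A1 k Q)

/-- intermediate invariant -/
def sig (X : Lb k RX) : AS k Q :=
  (vd (fun v => (X v).2), (∀ v, (X v).2.1 → (X v).1.1), exq (False, False) (rho1 δ q0 F) X)

lemma cmp_sig : Cmp (sig δ q0 F) :=
  (cmp_vd.lab (fun r : RX => r.2)).pair
    ((cmp_all (fun r : RX => r.2.1 → r.1.1)).pair (Cmp.exq _ (cmp_rho1 δ q0 F)))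

/-- level 2 types -/
abbrev A2 (k : ℕ) (Q : Type) := AV k × Set (AS k Q)

/-- level 2 invariant -/
def rho2 (X : Lb k (Prop × LT)) : A2 k Q :=
  (vd (fun v => (X v).2), exq (False, False) (sig δ q0 F) X)

lemma cmp_rho2 : Cmp (rho2 δ q0 F) :=
  (cmp_vd.lab (fun r : Prop × LT => r.2)).pair (Cmp.exq _ (cmp_sig δ q0 F))

/-- level 3 invariant -/
def rho3 (X : Lb k (Unit × Prop)) : Set (A2 k Q) :=
  exq (False, False) (rho2 δ q0 F) (fun v => (X v).2)

lemma cmp_rho3 : Cmp (rho3 δ q0 F) :=
  (Cmp.exq (False, False) (cmp_rho2 δ q0 F)).lab (fun r : Unit × Prop => r.2)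

/-- equivalence condition -/
def good1 (t : Set (A1 k Q)) : Prop := ∀ a ∈ t, Valid a.1 → (KpT a.2.1 ↔ KpT a.2.2)
/-- existence of an equivalent small element -/
def good2 (t : Set (AS k Q)) : Prop := ∃ b ∈ t, Valid b.1 ∧ b.2.1 ∧ good1 b.2.2
/-- all elements have an equivalent small element -/
def good3 (t : Set (A2 k Q)) : Prop := ∀ c ∈ t, Valid c.1 → good2 c.2

lemma kpt_word [Fintype Q] (u w : List (Lt k)) :
    KpT (kap δ q0 F (fun v => ((tr (winv u) v).1 ∨ (tr w v).1, (tr (winv u) v).2, (tr w v).2))) ↔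
      InK δ q0 F (u ++ w) := by
  rw [ink_iff]
  have h := kpt_iff δ q0 F (D := H395R3.Fim.mt (winv u) ∪ H395R3.Fim.mt w)
    (n := (winv u).length + w.length + 1) (by
      rintro v (hv | hv)
      · have := vis_length_le _ _ v hv
        simp only [List.length_nil] at this
        omega
      · have := vis_length_le _ _ v hv
        simp only [List.length_nil] at this
        omega) (fin [] (winv u)) (fin [] w)
  exact h

lemma good1_iff [Fintype Q] (S : Lb k Prop) (u u' : List (Lt k)) :
    good1 (exq (False, False) (rho1 δ q0 F) (fun v => ((S v, tr (winv u) v), tr (winv u') v))) ↔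
      ∀ w, (InK δ q0 F (u ++ w) ↔ InK δ q0 F (u' ++ w)) := by
  constructor
  · intro h w
    have h1 := h _ ⟨tr w, w.length + 1, dep_tr w, rfl⟩ (valid_tr w)
    rw [← kpt_word, ← kpt_word]
    exact h1
  · rintro h a ⟨Y, n, hY, rfl⟩ hv
    obtain ⟨w, rfl, _⟩ := tr_surj (Y := Y) hv hY
    have h1 := h w
    rw [← kpt_word, ← kpt_word] at h1
    exact h1

lemma good2_iff [Fintype Q] (S : Lb k Prop) (u : List (Lt k)) :
    good2 (exq (False, False) (sig δ q0 F) (fun v => (S v, tr (winv u) v))) ↔
      ∃ u', (∀ v ∈ vis ([] : Vx k) (winv u'), S v) ∧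
        ∀ w, (InK δ q0 F (u ++ w) ↔ InK δ q0 F (u' ++ w)) := by
  constructor
  · rintro ⟨b, ⟨Y, n, hY, rfl⟩, h1, h2, h3⟩
    obtain ⟨w', rfl, _⟩ := tr_surj (Y := Y) h1 hY
    refine ⟨winv w', ?_, ?_⟩
    · intro v hv
      rw [winv_winv] at hv
      exact h2 v hv
    · rw [← good1_iff δ q0 F S, winv_winv]
      exact h3
  · rintro ⟨u', h1, h2⟩
    exact ⟨_, ⟨tr (winv u'), (winv u').length + 1, dep_tr _, rfl⟩, valid_tr _, h1,
      (good1_iff δ q0 F S u u').2 h2⟩

lemma good3_iff [Fintype Q] (S : Lb k Prop) :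
    good3 (rho3 δ q0 F (fun v => ((), S v))) ↔
      ∀ u, ∃ u', (∀ v ∈ vis ([] : Vx k) (winv u'), S v) ∧
        ∀ w, (InK δ q0 F (u ++ w) ↔ InK δ q0 F (u' ++ w)) := by
  constructor
  · intro h u
    rw [← good2_iff]
    exact h _ ⟨tr (winv u), (winv u).length + 1, dep_tr _, rfl⟩ (valid_tr _)
  · rintro h c ⟨Y, n, hY, rfl⟩ hv
    obtain ⟨w, rfl, _⟩ := tr_surj (Y := Y) hv hY
    have h1 := h (winv w)
    rw [← good2_iff, winv_winv] at h1
    exact h1

lemma ink_congr [Fintype Q] {u u' : List (Lt k)} (h : tr (winv u) = tr (winv u'))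
    (w : List (Lt k)) : InK δ q0 F (u ++ w) ↔ InK δ q0 F (u' ++ w) := by
  rw [← kpt_word, ← kpt_word, h]

end

lemma winv_length (u : List (Lt k)) : (winv u).length = u.length := by
  simp [winv]

/-- length bounds -/
noncomputable def L0 (k n3 : ℕ) : ℕ := WW k n3
/-- length bounds -/
noncomputable def L1 (k n3 n2 : ℕ) : ℕ := WW k (L0 k n3 + 1 + n2)
/-- length bounds -/
noncomputable def L2 (k n3 n2 n1 : ℕ) : ℕ := WW k (L0 k n3 + L1 k n3 n2 + 1 + n1)

theorem finite_iff [Fintype Q] (δ : Q → Lt k → Q → Prop) (q0 : Q) (F : Set Q) (n1 n2 n3 : ℕ)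
    (hn1 : n1 = Nat.card (A1 k Q)) (hn2 : n2 = Nat.card (A2 k Q))
    (hn3 : n3 = Nat.card (Set (A2 k Q))) :
    (Set.range (fun u : List (Lt k) => {w | InK δ q0 F (u ++ w)})).Finite ↔
      ∀ u : List (Lt k), u.length ≤ L1 k n3 n2 → ∃ u' : List (Lt k), u'.length ≤ L0 k n3 ∧
        ∀ w : List (Lt k), w.length ≤ L2 k n3 n2 n1 →
          (InK δ q0 F (u ++ w) ↔ InK δ q0 F (u' ++ w)) := by
  classical
  have : Finite (A1 k Q) := inferInstance
  have : Finite (A2 k Q) := inferInstance
  have hR : ∀ u u' : List (Lt k), ({w | InK δ q0 F (u ++ w)} = {w | InK δ q0 F (u' ++ w)}) ↔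
      ∀ w, (InK δ q0 F (u ++ w) ↔ InK δ q0 F (u' ++ w)) := fun u u' => Set.ext_iff
  constructor
  · intro hfin u _
    -- finitely many representatives
    obtain ⟨U, hU⟩ := hfin.exists_finset_coe
    have hrep : ∀ c ∈ U, ∃ u' : List (Lt k), {w | InK δ q0 F (u' ++ w)} = c := by
      intro c hc
      have : c ∈ (U : Set (Set (List (Lt k)))) := hc
      rw [hU] at this
      exact this
    choose! rep hrep using hrep
    let S : Lb k Prop := fun v => ∃ c ∈ U, v ∈ vis ([] : Vx k) (winv (rep c))
    have hS : ∀ u, ∃ u', (∀ v ∈ vis ([] : Vx k) (winv u'), S v) ∧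
        ∀ w, (InK δ q0 F (u ++ w) ↔ InK δ q0 F (u' ++ w)) := by
      intro u
      have hu : {w | InK δ q0 F (u ++ w)} ∈ U := by
        have : {w | InK δ q0 F (u ++ w)} ∈ (U : Set (Set (List (Lt k)))) := by
          rw [hU]; exact ⟨u, rfl⟩
        exact this
      refine ⟨rep {w | InK δ q0 F (u ++ w)}, fun v hv => ⟨_, hu, hv⟩, ?_⟩
      rw [← hR]
      exact (hrep _ hu).symm
    have hSd : Dep False (U.sup (fun c => (winv (rep c)).length) + 1) S := by
      intro v hv
      apply propext
      refine ⟨?_, fun h => h.elim⟩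
      rintro ⟨c, hc, h1⟩
      have h2 := vis_length_le _ _ v h1
      have h3 : (winv (rep c)).length ≤ U.sup (fun c => (winv (rep c)).length) :=
        Finset.le_sup (f := fun c => (winv (rep c)).length) hc
      simp only [List.length_nil] at h2
      omega
    obtain ⟨S', hS'd, hS'⟩ := depth_lemma () False (cmp_rho3 δ q0 F) 0 (fun _ => ())
      (fun _ _ => rfl) S _ hSd
    have hg : good3 (rho3 δ q0 F (fun v => ((), S' v))) := by
      rw [hS']
      exact (good3_iff δ q0 F S).2 hS
    obtain ⟨u', h1, h2⟩ := (good3_iff δ q0 F S').1 hg u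
    have h3 : Dep ((False, False) : LT) n3 (tr (winv u')) := by
      intro v hv
      have h4 : ¬ v ∈ vis ([] : Vx k) (winv u') := by
        intro h
        have h5 := h1 v h
        rw [hS'd v (by omega)] at h5
        exact h5
      exact Prod.ext (propext ⟨fun h => h4 h, fun h => h.elim⟩)
        (propext ⟨fun h => h4 (by
          have : v = fin ([] : Vx k) (winv u') := h
          rw [this]; exact fin_mem_vis _ _), fun h => h.elim⟩)
    obtain ⟨w', h4, h5⟩ := tr_surj (valid_tr (winv u')) h3
    refine ⟨winv w', by rw [winv_length]; exact h5, fun w _ => ?_⟩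
    rw [h2 w]
    exact ink_congr δ q0 F (by rw [winv_winv]; exact h4) w
  · intro hB
    -- the inner condition holds for all w
    have step1 : ∀ u : List (Lt k), u.length ≤ L1 k n3 n2 → ∃ u' : List (Lt k),
        u'.length ≤ L0 k n3 ∧ ∀ w, (InK δ q0 F (u ++ w) ↔ InK δ q0 F (u' ++ w)) := by
      intro u hu
      obtain ⟨u', hu', h1⟩ := hB u hu
      refine ⟨u', hu', ?_⟩
      rw [← good1_iff δ q0 F (fun _ => False) u u']
      rintro a ⟨Y, n, hY, rfl⟩ hv
      have hX : Dep (((False, (False, False)), (False, False)) : RX)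
          (L0 k n3 + L1 k n3 n2 + 1)
          (fun v => ((False, tr (winv u) v), tr (winv u') v)) := by
        intro v hv
        have e1 := dep_tr (winv u) v (by rw [winv_length]; omega)
        have e2 := dep_tr (winv u') v (by rw [winv_length]; omega)
        show ((False, tr (winv u) v), tr (winv u') v) = _
        rw [e1, e2]
      obtain ⟨Y', h2, h3⟩ := depth_lemma (((False, (False, False)), (False, False)) : RX)
        ((False, False) : LT) (cmp_rho1 δ q0 F) _ _ hX Y n hY
      rw [← h3] at hv ⊢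
      obtain ⟨w, rfl, hw⟩ := tr_surj (Y := Y') hv h2
      rw [← hn1] at hw
      have h4 := h1 w hw
      rw [← kpt_word, ← kpt_word] at h4
      exact h4
    -- all words have a small equivalent
    have step2 : ∀ u : List (Lt k), ∃ u' : List (Lt k), u'.length ≤ WW k (L0 k n3 + 1) ∧
        ∀ w, (InK δ q0 F (u ++ w) ↔ InK δ q0 F (u' ++ w)) := by
      intro u
      let S : Lb k Prop := fun v => v.length < L0 k n3 + 1
      have hS : Dep False (L0 k n3 + 1) S := by
        intro v hv
        apply propext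
        refine ⟨?_, fun h => h.elim⟩
        intro h
        have : v.length < L0 k n3 + 1 := h
        omega
      obtain ⟨Y', h2, h3⟩ := depth_lemma False ((False, False) : LT) (cmp_rho2 δ q0 F) _ S hS
        (tr (winv u)) _ (dep_tr (winv u))
      have hv : Valid (vd Y') := by
        have h4 : vd Y' = vd (tr (winv u)) := (Prod.ext_iff.1 h3).1
        rw [h4]; exact valid_tr _
      obtain ⟨w1, rfl, hw1⟩ := tr_surj hv h2
      rw [← hn2] at hw1
      obtain ⟨u1', e1, e2⟩ := step1 (winv w1) (by rw [winv_length]; exact hw1)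
      have h5 : good2 (exq (False, False) (sig δ q0 F)
          (fun v => (S v, tr (winv (winv w1)) v))) := by
        rw [good2_iff]
        refine ⟨u1', ?_, e2⟩
        intro v hv
        have := vis_length_le _ _ v hv
        rw [winv_length] at this
        simp only [List.length_nil] at this
        show v.length < L0 k n3 + 1
        omega
      rw [winv_winv] at h5
      have h6 : exq (False, False) (sig δ q0 F) (fun v => (S v, tr w1 v)) =
          exq (False, False) (sig δ q0 F) (fun v => (S v, tr (winv u) v)) :=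
        (Prod.ext_iff.1 h3).2
      rw [h6, good2_iff] at h5
      obtain ⟨u', g1, g2⟩ := h5
      have h7 : Dep ((False, False) : LT) (L0 k n3 + 1) (tr (winv u')) := by
        intro v hv
        have h4 : ¬ v ∈ vis ([] : Vx k) (winv u') := by
          intro h
          have h5 : v.length < L0 k n3 + 1 := g1 v h
          omega
        exact Prod.ext (propext ⟨fun h => h4 h, fun h => h.elim⟩)
          (propext ⟨fun h => h4 (by
            have : v = fin ([] : Vx k) (winv u') := h
            rw [this]; exact fin_mem_vis _ _), fun h => h.elim⟩)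
      obtain ⟨w', h8, h9⟩ := tr_surj (valid_tr (winv u')) h7
      refine ⟨winv w', by rw [winv_length]; exact h9, fun w => ?_⟩
      rw [g2 w]
      exact ink_congr δ q0 F (by rw [winv_winv]; exact h8) w
    have hfin : ((words k (WW k (L0 k n3 + 1))).toFinset.image
        (fun u => {w | InK δ q0 F (u ++ w)}) : Set (Set (List (Lt k)))).Finite :=
      Finset.finite_toSet _
    refine hfin.subset ?_
    rintro _ ⟨u, rfl⟩
    obtain ⟨u', h1, h2⟩ := step2 u
    rw [Finset.mem_coe, Finset.mem_image]
    refine ⟨u', ?_, ?_⟩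
    · rw [List.mem_toFinset, mem_words]; exact h1
    · exact ((hR u u').2 h2).symm

end Pool.Agent.H395R4.Rec
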