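import Pool.Agent.H395R4.RecE

set_option autoImplicit false

namespace Pool.Agent.H395R4.Rec

open Relation Pool.Agent.H395R3.Fim

variable {k : ℕ}

/-! ### free group -/

/-- letters of the frozen statement -/
abbrev Ls (k : ℕ) := Fin k ⊕ Fin k

/-- letter translation -/
def en (x : Ls k) : Lt k := Sum.elim (fun i => (i, true)) (fun i => (i, false)) x
/-- inverse letter translation -/
def dn (x : Lt k) : Ls k := if x.2 then Sum.inl x.1 else Sum.inr x.1

lemma dn_en (x : Ls k) : dn (en x) = x := by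
  cases x <;> rfl

lemma en_dn (x : Lt k) : en (dn x) = x := by
  rcases x with ⟨i, b⟩
  cases b <;> rfl

/-- letters in the free group -/
def fg (x : Ls k) : FreeGroup (Fin k) :=
  Sum.elim (fun i : Fin k => FreeGroup.of i) (fun i : Fin k => (FreeGroup.of i)⁻¹) x

lemma fg_eq (x : Ls k) : fg x = FreeGroup.mk [en x] := by
  cases x with
  | inl i => rfl
  | inr i => rfl

lemma prod_fg (w : List (Ls k)) : (w.map fg).prod = FreeGroup.mk (w.map en) := by
  induction w with
  | nil => rfl
  | cons x w ih =>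
    rw [List.map_cons, List.prod_cons, ih, fg_eq, FreeGroup.mul_mk]
    rfl

/-- vertices as group elements -/
def rep (v : Vx k) : FreeGroup (Fin k) := FreeGroup.mk v.reverse

lemma rep_push (u : Vx k) (x : Lt k) : rep (push u x) = rep u * FreeGroup.mk [x] := by
  cases u with
  | nil => rfl
  | cons y t =>
    rw [push_cons]
    split_ifs with h
    · unfold rep
      rw [List.reverse_cons, FreeGroup.mul_mk, h]
      have h1 : (FreeGroup.mk (t.reverse ++ [inv x] ++ [x]) : FreeGroup (Fin k)) =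
          FreeGroup.mk t.reverse := by
        rw [← FreeGroup.mul_mk, ← FreeGroup.mul_mk, mul_assoc]
        have h2 : (FreeGroup.mk [inv x] * FreeGroup.mk [x] : FreeGroup (Fin k)) = 1 := by
          have h3 : (FreeGroup.mk [inv x] : FreeGroup (Fin k)) = (FreeGroup.mk [x])⁻¹ := by
            rw [FreeGroup.inv_mk]
            rfl
          rw [h3, inv_mul_cancel]
        rw [h2, mul_one]
      exact h1.symm
    · unfold rep
      rw [FreeGroup.mul_mk, List.reverse_cons]

lemma rep_fin (u : Vx k) (w : List (Lt k)) : rep (fin u w) = rep u * FreeGroup.mk w := by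
  induction w generalizing u with
  | nil =>
    rw [fin_nil]
    exact (mul_one _).symm
  | cons x w ih =>
    rw [fin_cons, ih, rep_push, mul_assoc, FreeGroup.mul_mk]
    rfl

lemma isReduced_of_red {v : Vx k} (h : Red v) : FreeGroup.IsReduced v.reverse := by
  unfold FreeGroup.IsReduced
  rw [List.isChain_reverse]
  refine List.IsChain.imp ?_ h
  intro a b hab h1
  by_contra h2
  apply hab
  refine Prod.ext h1.symm ?_
  show a.2 = !b.2
  cases ha : a.2 <;> cases hb : b.2 <;> simp_all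

lemma rep_inj {u v : Vx k} (hu : Red u) (hv : Red v) (h : rep u = rep v) : u = v := by
  have h1 := congrArg FreeGroup.toWord h
  unfold rep at h1
  rw [FreeGroup.toWord_mk, FreeGroup.toWord_mk, (isReduced_of_red hu).reduce_eq,
    (isReduced_of_red hv).reduce_eq] at h1
  exact List.reverse_injective h1

lemma rep_fin_nil (w : List (Lt k)) : rep (fin [] w) = FreeGroup.mk w := by
  rw [rep_fin]
  exact one_mul _

lemma same_iff_fg (x v : List (Ls k)) :
    Same (x.map en) (v.map en) ↔
      ((x.map fg).prod = (v.map fg).prod ∧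
      {g : FreeGroup (Fin k) | ∃ i : ℕ, ((x.take i).map fg).prod = g} =
      {g : FreeGroup (Fin k) | ∃ i : ℕ, ((v.take i).map fg).prod = g}) := by
  have hset : ∀ x : List (Ls k),
      {g : FreeGroup (Fin k) | ∃ i : ℕ, ((x.take i).map fg).prod = g} =
      rep '' {y | y ∈ vis ([] : Vx k) (x.map en)} := by
    intro x
    ext g
    constructor
    · rintro ⟨i, rfl⟩
      refine ⟨fin [] ((x.map en).take i), take_mem_vis _ _ _, ?_⟩
      rw [rep_fin_nil, prod_fg, List.map_take]
    · rintro ⟨y, hy, rfl⟩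
      obtain ⟨i, _, rfl⟩ := vis_take _ _ hy
      refine ⟨i, ?_⟩
      rw [rep_fin_nil, prod_fg, List.map_take]
  rw [hset, hset, prod_fg, prod_fg, ← rep_fin_nil, ← rep_fin_nil]
  have hred : ∀ w : List (Lt k), ∀ y ∈ vis ([] : Vx k) w, Red y := fun w =>
    red_of_vis red_nil w
  constructor
  · rintro ⟨h1, h2⟩
    refine ⟨by rw [h2], ?_⟩
    have : {y | y ∈ vis ([] : Vx k) (x.map en)} = {y | y ∈ vis ([] : Vx k) (v.map en)} := by
      ext y; exact h1 y
    rw [this]
  · rintro ⟨h1, h2⟩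
    refine ⟨?_, rep_inj (red_fin red_nil _) (red_fin red_nil _) h1⟩
    have aux : ∀ x v : List (Lt k), rep '' {y | y ∈ vis ([] : Vx k) x} =
        rep '' {y | y ∈ vis ([] : Vx k) v} → ∀ y, y ∈ vis ([] : Vx k) x → y ∈ vis [] v := by
      intro x v h y hy
      have h3 : rep y ∈ rep '' {y | y ∈ vis ([] : Vx k) x} := ⟨y, hy, rfl⟩
      rw [h] at h3
      obtain ⟨y', h4, h5⟩ := h3
      rw [← rep_inj (hred _ _ h4) (hred _ _ hy) h5]
      exact h4
    exact fun y => ⟨aux _ _ h2 y, aux _ _ h2.symm y⟩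

/-! ### automata with empty moves -/

/-- transitions -/
abbrev Tn (k : ℕ) := ℕ × Option (Ls k) × ℕ

/-- path as list of transitions -/
def PL (E : List (Tn k)) : ℕ → List (Tn k) → ℕ → Prop
  | q, [], q' => q = q'
  | q, t :: l, q' => t.1 = q ∧ t ∈ E ∧ PL E t.2.2 l q'

/-- consecutive transitions -/
def Cons (l : List (Tn k)) : Prop := ∀ i : ℕ, i + 1 < l.length →
  (l[i]?).map (fun t => t.2.2) = (l[i+1]?).map (fun t => t.1)

lemma cons_cons (t : Tn k) (l : List (Tn k)) : Cons (t :: l) ↔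
    ((l.head?).map (fun t => t.1)).getD t.2.2 = t.2.2 ∧ Cons l := by
  constructor
  · intro h
    refine ⟨?_, ?_⟩
    · cases l with
      | nil => rfl
      | cons s l =>
        have := h 0 (by simp)
        simp only [List.getElem?_cons_zero, Option.map_some, List.getElem?_cons_succ,
          Option.some.injEq] at this
        simp [this]
    · intro i hi
      have := h (i + 1) (by simp only [List.length_cons]; omega)
      simpa using this
  · rintro ⟨h1, h2⟩ i hi
    cases i with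
    | zero =>
      cases l with
      | nil => simp at hi
      | cons s l =>
        simp only [List.head?_cons, Option.map_some, Option.getD_some] at h1
        simp [h1]
    | succ i =>
      have := h2 i (by simp only [List.length_cons] at hi; omega)
      simpa using this

lemma pl_iff (E : List (Tn k)) (q : ℕ) (l : List (Tn k)) (q' : ℕ) : PL E q l q' ↔
    (∀ t ∈ l, t ∈ E) ∧ Cons l ∧ ((l.head?).map (fun t => t.1)).getD q = q ∧
      ((l.getLast?).map (fun t => t.2.2)).getD q = q' := by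
  induction l generalizing q with
  | nil =>
    constructor
    · intro h
      refine ⟨by simp, ?_, rfl, h⟩
      intro i hi
      simp at hi
    · rintro ⟨_, _, _, h⟩
      exact h
  | cons t l ih =>
    have hlast : (((t :: l).getLast?).map (fun t => t.2.2)).getD q =
        ((l.getLast?).map (fun t => t.2.2)).getD t.2.2 := by
      cases l with
      | nil => rfl
      | cons s l => simp [List.getLast?_cons]
    rw [hlast, cons_cons]
    constructor
    · rintro ⟨h1, h2, h3⟩
      obtain ⟨e1, e2, e3, e4⟩ := (ih _).1 h3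
      refine ⟨?_, ⟨e3, e2⟩, h1, e4⟩
      intro s hs
      rcases List.mem_cons.1 hs with rfl | hs
      · exact h2
      · exact e1 s hs
    · rintro ⟨h1, ⟨h2, h3⟩, h4, h5⟩
      refine ⟨h4, h1 t (by simp), (ih _).2 ⟨fun s hs => h1 s (by simp [hs]), h3, h2, h5⟩⟩

/-- empty moves -/
def Eps (E : List (Tn k)) : ℕ → ℕ → Prop := ReflTransGen (fun q r => (q, none, r) ∈ E)

/-- letter moves -/
def dE (E : List (Tn k)) (q : ℕ) (x : Lt k) (q' : ℕ) : Prop :=
  ∃ r, Eps E q r ∧ (r, some (dn x), q') ∈ E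

lemma pl_append (E : List (Tn k)) {q r q' : ℕ} {l l' : List (Tn k)} (h1 : PL E q l r)
    (h2 : PL E r l' q') : PL E q (l ++ l') q' := by
  induction l generalizing q with
  | nil =>
    have h : q = r := h1
    rw [h]; exact h2
  | cons t l ih =>
    obtain ⟨e1, e2, e3⟩ := h1
    exact ⟨e1, e2, ih e3⟩

lemma pl_eps (E : List (Tn k)) {q r : ℕ} (h : Eps E q r) :
    ∃ l, PL E q l r ∧ l.filterMap (fun t => t.2.1) = [] := by
  unfold Eps at h
  induction h with
  | refl => exact ⟨[], rfl, rfl⟩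
  | @tail y z _ h2 ih =>
    obtain ⟨l, h3, h4⟩ := ih
    refine ⟨l ++ [(y, none, z)], pl_append E h3 ⟨rfl, h2, rfl⟩, ?_⟩
    rw [List.filterMap_append, h4]
    rfl

lemma pl_path (E : List (Tn k)) (q q' : ℕ) (v : List (Ls k)) :
    (∃ l, PL E q l q' ∧ l.filterMap (fun t => t.2.1) = v) ↔
      ∃ r, Path (dE E) q (v.map en) r ∧ Eps E r q' := by
  constructor
  · rintro ⟨l, h1, h2⟩
    induction l generalizing q v with
    | nil =>
      have h : q = q' := h1
      simp only [List.filterMap_nil] at h2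
      subst h2
      exact ⟨q, rfl, by rw [h]; exact ReflTransGen.refl⟩
    | cons t l ih =>
      obtain ⟨e1, e2, e3⟩ := h1
      rcases t with ⟨a, b, c⟩
      simp only at e1 e3
      subst e1
      cases b with
      | none =>
        rw [List.filterMap_cons_none rfl] at h2
        obtain ⟨r, h3, h4⟩ := ih c v e3 h2
        cases v with
        | nil =>
          have h5 : c = r := h3
          refine ⟨a, rfl, ReflTransGen.head e2 ?_⟩
          rw [h5]; exact h4
        | cons x v =>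
          obtain ⟨s, ⟨r', h5, h6⟩, h7⟩ := h3
          exact ⟨r, ⟨s, ⟨r', ReflTransGen.head e2 h5, h6⟩, h7⟩, h4⟩
      | some x =>
        have h2' : x :: List.filterMap (fun t : Tn k => t.2.1) l = v := h2
        subst h2'
        obtain ⟨r, h3, h4⟩ := ih c _ e3 rfl
        refine ⟨r, ⟨c, ⟨a, ReflTransGen.refl, ?_⟩, h3⟩, h4⟩
        rw [dn_en]; exact e2
  · rintro ⟨r, h1, h2⟩
    induction v generalizing q with
    | nil =>
      have h : q = r := h1
      rw [h]
      exact pl_eps E h2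
    | cons x v ih =>
      obtain ⟨s, ⟨r', h5, h6⟩, h7⟩ := h1
      obtain ⟨l, h8, h9⟩ := ih s h7
      obtain ⟨l', h10, h11⟩ := pl_eps E h5
      rw [dn_en] at h6
      refine ⟨l' ++ (r', some x, s) :: l, pl_append E h10 ⟨rfl, h6, h8⟩, ?_⟩
      rw [List.filterMap_append, h11]
      show x :: List.filterMap (fun t : Tn k => t.2.1) l = x :: v
      rw [h9]

/-- inputs -/
abbrev Ain (k : ℕ) := List (Tn k) × List ℕ

/-- acceptance of the frozen statement -/
def AccE (A : Ain k) (v : List (Ls k)) : Prop :=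
  ∃ l : List (ℕ × Option (Fin k ⊕ Fin k) × ℕ),
    (∀ t ∈ l, t ∈ A.1) ∧
    (∀ i : ℕ, i + 1 < l.length →
      (l[i]?).map (fun t => t.2.2) = (l[i+1]?).map (fun t => t.1)) ∧
    ((l.head?).map (fun t => t.1)).getD 0 = 0 ∧
    ((l.getLast?).map (fun t => t.2.2)).getD 0 ∈ A.2 ∧
    l.filterMap (fun t => t.2.1) = v

/-- final states -/
def fE (A : Ain k) : Set ℕ := {q | ∃ f ∈ A.2, Eps A.1 q f}

lemma accE_iff (A : Ain k) (v : List (Ls k)) :
    AccE A v ↔ ∃ f ∈ fE A, Path (dE A.1) 0 (v.map en) f := by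
  constructor
  · rintro ⟨l, h1, h2, h3, h4, h5⟩
    have h6 : PL A.1 0 l (((l.getLast?).map (fun t => t.2.2)).getD 0) :=
      (pl_iff _ _ _ _).2 ⟨h1, h2, h3, rfl⟩
    obtain ⟨r, h7, h8⟩ := (pl_path A.1 0 _ v).1 ⟨l, h6, h5⟩
    exact ⟨r, ⟨_, h4, h8⟩, h7⟩
  · rintro ⟨r, ⟨f, hf, h8⟩, h7⟩
    obtain ⟨l, h6, h5⟩ := (pl_path A.1 0 f v).2 ⟨r, h7, h8⟩
    obtain ⟨h1, h2, h3, h4⟩ := (pl_iff _ _ _ _).1 h6
    exact ⟨l, h1, h2, h3, by rw [h4]; exact hf, h5⟩

/-- state bound -/
def bE (A : Ain k) : ℕ := A.1.foldl (fun acc e => acc + e.2.2) 0 + 1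

lemma foldl_le' (E : List (Tn k)) (n : ℕ) :
    n ≤ E.foldl (fun acc e => acc + e.2.2) n ∧
    ∀ e ∈ E, e.2.2 ≤ E.foldl (fun acc e => acc + e.2.2) n := by
  induction E generalizing n with
  | nil => simp
  | cons e E ih =>
    obtain ⟨h1, h2⟩ := ih (n + e.2.2)
    refine ⟨?_, ?_⟩
    · simp only [List.foldl_cons]; omega
    · intro e' he'
      rcases List.mem_cons.1 he' with rfl | he'
      · simp only [List.foldl_cons]; omega
      · exact h2 e' he'

lemma bE_tr (A : Ain k) : ∀ e ∈ A.1, e.2.2 < bE A :=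
  fun e he => Nat.lt_succ_of_le ((foldl_le' A.1 0).2 e he)

lemma path_fin' {δ : ℕ → Lt k → ℕ → Prop} {m : ℕ} (hb : ∀ q x q', δ q x q' → q' < m)
    (q : Fin m) (w : List (Lt k)) (f : ℕ) :
    Path δ (q : ℕ) w f ↔
      ∃ f' : Fin m, (f' : ℕ) = f ∧
        Path (Q := Fin m) (fun (a : Fin m) x (b : Fin m) => δ (a : ℕ) x (b : ℕ)) q w f' := by
  induction w generalizing q with
  | nil =>
    constructor
    · intro h; exact ⟨q, h, rfl⟩
    · rintro ⟨f', h1, h2⟩
      have h2' : q = f' := h2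
      show (q : ℕ) = f
      rw [h2', h1]
  | cons x w ih =>
    constructor
    · rintro ⟨r, h1, h2⟩
      have hr : r < m := hb _ _ _ h1
      obtain ⟨f', h3, h4⟩ := (ih ⟨r, hr⟩).1 h2
      exact ⟨f', h3, ⟨r, hr⟩, h1, h4⟩
    · rintro ⟨f', h3, r, h1, h4⟩
      exact ⟨r, h1, (ih r).2 ⟨f', h3, h4⟩⟩

/-- transitions on `Fin` -/
def dF (A : Ain k) (a : Fin (bE A)) (x : Lt k) (b : Fin (bE A)) : Prop :=
  dE A.1 (a : ℕ) x (b : ℕ)
/-- final states on `Fin` -/
def fF (A : Ain k) : Set (Fin (bE A)) := {f | (f : ℕ) ∈ fE A}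
/-- initial state on `Fin` -/
def iF (A : Ain k) : Fin (bE A) := ⟨0, Nat.succ_pos _⟩

lemma accE_iff_fin (A : Ain k) (v : List (Ls k)) :
    AccE A v ↔ AccQ (dF A) (iF A) (fF A) (v.map en) := by
  rw [accE_iff]
  have hb : ∀ q x q', dE A.1 q x q' → q' < bE A := by
    rintro q x q' ⟨r, _, h⟩
    exact bE_tr A _ h
  constructor
  · rintro ⟨f, hf, hp⟩
    obtain ⟨f', h1, h2⟩ := (path_fin' hb (iF A) (v.map en) f).1 hp
    exact ⟨f', by show (f' : ℕ) ∈ fE A; rw [h1]; exact hf, h2⟩
  · rintro ⟨f', hf, hp⟩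
    exact ⟨f', hf, (path_fin' hb (iF A) (v.map en) f').2 ⟨f', rfl, hp⟩⟩

/-! ### the residuals -/

/-- residual of the frozen statement -/
def resid (A : Ain k) (u : List (Ls k)) : Set (List (Ls k)) :=
  {w | ∃ v, AccE A v ∧ ((u ++ w).map fg).prod = (v.map fg).prod ∧
    {g : FreeGroup (Fin k) | ∃ i : ℕ, (((u ++ w).take i).map fg).prod = g} =
    {g : FreeGroup (Fin k) | ∃ i : ℕ, ((v.take i).map fg).prod = g}}

lemma map_en_dn (v : List (Lt k)) : (v.map dn).map en = v := by
  rw [List.map_map]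
  have : (en ∘ dn : Lt k → Lt k) = id := by funext x; exact en_dn x
  rw [this, List.map_id]

lemma mem_resid (A : Ain k) (u w : List (Ls k)) :
    w ∈ resid A u ↔ InK (dF A) (iF A) (fF A) (u.map en ++ w.map en) := by
  constructor
  · rintro ⟨v, h1, h2⟩
    rw [← same_iff_fg] at h2
    refine ⟨v.map en, (accE_iff_fin A v).1 h1, ?_⟩
    rw [← List.map_append]; exact h2
  · rintro ⟨v, h1, h2⟩
    refine ⟨v.map dn, (accE_iff_fin A _).2 (by rw [map_en_dn]; exact h1), ?_⟩
    rw [← same_iff_fg, map_en_dn, List.map_append]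
    exact h2

lemma finite_resid (A : Ain k) :
    (Set.range (resid A)).Finite ↔
      (Set.range (fun u : List (Lt k) => {w | InK (dF A) (iF A) (fF A) (u ++ w)})).Finite := by
  have hsurj : Function.Surjective (List.map (en : Ls k → Lt k)) := fun v => ⟨_, map_en_dn v⟩
  have h1 : Set.range (resid A) = (fun S => (List.map (en : Ls k → Lt k)) ⁻¹' S) ''
      (Set.range (fun u : List (Lt k) => {w | InK (dF A) (iF A) (fF A) (u ++ w)})) := by
    ext S
    constructor
    · rintro ⟨u, rfl⟩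
      refine ⟨_, ⟨u.map en, rfl⟩, ?_⟩
      ext w
      exact (mem_resid A u w).symm
    · rintro ⟨_, ⟨u, rfl⟩, rfl⟩
      refine ⟨u.map dn, ?_⟩
      ext w
      rw [mem_resid, map_en_dn]
      rfl
  rw [h1]
  exact Set.finite_image_iff (Function.Injective.injOn hsurj.preimage_injective)

end Pool.Agent.H395R4.Rec
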