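import Pool.Agent.H395R4.RecF

set_option autoImplicit false

namespace Pool.Agent.H395R4.Rec

open Relation Pool.Agent.H395R3.Fim

variable {k : ℕ}

/-! ### cardinalities -/

/-- card of base types -/
def kB (m : ℕ) : ℕ := 2 * (2 ^ (m * m) * (2 ^ (4 * m) * (2 ^ (4 * m) * 2 ^ (4 * 4))))
/-- card of innermost types -/
def kA (m : ℕ) : ℕ := kB m * ((2 * 2) * ((2 * 2) * 2))
/-- card of middle types -/
def kZ (m : ℕ) : ℕ := 2 ^ kA m * 2
/-- card of acceptance types -/
def kK (m : ℕ) : ℕ := 2 ^ kZ m
/-- card of validity types -/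
def kV (k : ℕ) : ℕ := (2 * 2 ^ (k * 2 + 1)) * ((2 * 2) * 2)
/-- card of level 1 types -/
def c1 (k m : ℕ) : ℕ := kV k * (kK m * kK m)
/-- card of intermediate types -/
def cS (k m : ℕ) : ℕ := kV k * (2 * 2 ^ c1 k m)
/-- card of level 2 types -/
def c2 (k m : ℕ) : ℕ := kV k * 2 ^ cS k m
/-- card of level 3 types -/
def c3 (k m : ℕ) : ℕ := 2 ^ c2 k m

lemma card_set (α : Type) [Finite α] : Nat.card (Set α) = 2 ^ Nat.card α := by
  let _ : Fintype α := Fintype.ofFinite α
  rw [Nat.card_eq_fintype_card, Nat.card_eq_fintype_card, Fintype.card_set]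

lemma card_prop : Nat.card Prop = 2 := by
  rw [Nat.card_eq_fintype_card, Fintype.card_prop]

lemma card_B (m : ℕ) : Nat.card (BT (Fin 4) (Fin m)) = kB m := by
  simp only [BT, Nat.card_prod, card_set, card_prop, Nat.card_fin, kB]

lemma card_A (m : ℕ) : Nat.card (AA (Fin m)) = kA m := by
  rw [kA, ← card_B]
  simp only [AA, Nat.card_prod, card_prop]

lemma card_Z (m : ℕ) : Nat.card (AZ (Fin m)) = kZ m := by
  rw [kZ, ← card_A, AZ, Nat.card_prod, card_set, card_prop]

lemma card_K (m : ℕ) : Nat.card (AK (Fin m)) = kK m := by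
  rw [kK, ← card_Z, AK, card_set]

lemma card_V (k : ℕ) : Nat.card (AV k) = kV k := by
  have h1 : Nat.card (Option (Lt k) → Prop) = 2 ^ (k * 2 + 1) := by
    rw [Nat.card_eq_fintype_card]
    simp
  simp only [AV, Nat.card_prod, h1, card_prop, kV]

lemma card_1 (k m : ℕ) : Nat.card (A1 k (Fin m)) = c1 k m := by
  show Nat.card (AV k × (AK (Fin m) × AK (Fin m))) = _
  rw [Nat.card_prod (AV k), Nat.card_prod (AK (Fin m)), card_V, card_K, c1]

lemma card_S (k m : ℕ) : Nat.card (AS k (Fin m)) = cS k m := by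
  have hf : Finite (A1 k (Fin m)) := inferInstance
  show Nat.card (AV k × (Prop × Set (A1 k (Fin m)))) = _
  rw [Nat.card_prod (AV k), Nat.card_prod Prop, card_V, card_prop, card_set, card_1, cS]

lemma card_2 (k m : ℕ) : Nat.card (A2 k (Fin m)) = c2 k m := by
  have hf : Finite (AS k (Fin m)) := inferInstance
  show Nat.card (AV k × Set (AS k (Fin m))) = _
  rw [Nat.card_prod (AV k), card_V, card_set, card_S, c2]

lemma card_3 (k m : ℕ) : Nat.card (Set (A2 k (Fin m))) = c3 k m := by
  have h0 : Finite (AS k (Fin m)) := inferInstance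
  have h1 : Finite (Set (AS k (Fin m))) := inferInstance
  have h2 : Finite (AV k) := inferInstance
  have hf : Finite (AV k × Set (AS k (Fin m))) := inferInstance
  have hf' : Finite (A2 k (Fin m)) := hf
  rw [card_set, card_2, c3]

/-! ### decidable acceptance -/

/-- one round of empty moves -/
def stE (E : List (Tn k)) (S : List ℕ) : List ℕ :=
  S ++ E.flatMap (fun t => if t.1 ∈ S ∧ t.2.1 = none then [t.2.2] else [])

lemma mem_stE (E : List (Tn k)) (S : List ℕ) (r : ℕ) :
    r ∈ stE E S ↔ r ∈ S ∨ ∃ q ∈ S, (q, none, r) ∈ E := by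
  unfold stE
  rw [List.mem_append, List.mem_flatMap]
  refine or_congr Iff.rfl ?_
  constructor
  · rintro ⟨⟨a, b, c⟩, he, h⟩
    split_ifs at h with h1
    · simp only [List.mem_singleton] at h
      simp only at h1
      refine ⟨a, h1.1, ?_⟩
      rw [← h1.2, h]; exact he
    · simp at h
  · rintro ⟨q, hq, he⟩
    exact ⟨_, he, by simp [hq]⟩

/-- closure under empty moves -/
def clo (E : List (Tn k)) (S : List ℕ) : List ℕ := (stE E)^[S.length + E.length] S

lemma mem_iter (E : List (Tn k)) (S : List ℕ) (n : ℕ) (r : ℕ) :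
    r ∈ (stE E)^[n] S → ∃ q ∈ S, Eps E q r := by
  induction n generalizing r with
  | zero => intro h; exact ⟨r, h, ReflTransGen.refl⟩
  | succ n ih =>
    intro h
    rw [Function.iterate_succ_apply', mem_stE] at h
    rcases h with h | ⟨q, hq, h⟩
    · exact ih r h
    · obtain ⟨q', h1, h2⟩ := ih q hq
      exact ⟨q', h1, ReflTransGen.tail h2 h⟩

lemma iter_mem (E : List (Tn k)) (S : List ℕ) {q r : ℕ} (hq : q ∈ S) (h : Eps E q r) :
    ∃ n, r ∈ (stE E)^[n] S := by
  unfold Eps at h
  induction h with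
  | refl => exact ⟨0, hq⟩
  | @tail y z _ h2 ih =>
    obtain ⟨n, hn⟩ := ih
    refine ⟨n + 1, ?_⟩
    rw [Function.iterate_succ_apply', mem_stE]
    exact Or.inr ⟨y, hn, h2⟩

lemma mem_clo (E : List (Tn k)) (S : List ℕ) (r : ℕ) :
    r ∈ clo E S ↔ ∃ q ∈ S, Eps E q r := by
  classical
  constructor
  · exact mem_iter E S _ r
  · rintro ⟨q, hq, h⟩
    obtain ⟨n, hn⟩ := iter_mem E S hq h
    have key := stab (S.toFinset ∪ (E.map (fun t => t.2.2)).toFinset)
      (fun n => {r | r ∈ (stE E)^[n] S})
      (by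
        intro n
        induction n with
        | zero =>
          intro r hr
          have hr' : r ∈ S := hr
          simp only [Finset.coe_union, Set.mem_union, Finset.mem_coe, List.mem_toFinset]
          exact Or.inl hr'
        | succ n ih =>
          intro r hr
          have hr' : r ∈ (stE E)^[n + 1] S := hr
          rw [Function.iterate_succ_apply', mem_stE] at hr'
          rcases hr' with h | ⟨q, hq, h⟩
          · exact ih h
          · simp only [Finset.coe_union, Set.mem_union, Finset.mem_coe, List.mem_toFinset]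
            right
            exact List.mem_map.2 ⟨_, h, rfl⟩)
      (by
        intro n r hr
        show r ∈ (stE E)^[n + 1] S
        rw [Function.iterate_succ_apply', mem_stE]
        exact Or.inl hr)
      (by
        intro n hn
        have hn' : ∀ r, r ∈ (stE E)^[n] S ↔ r ∈ (stE E)^[n + 1] S := fun r => Set.ext_iff.1 hn r
        ext r
        show r ∈ (stE E)^[n + 1] S ↔ r ∈ (stE E)^[n + 2] S
        rw [Function.iterate_succ_apply', Function.iterate_succ_apply', mem_stE, mem_stE]
        simp only [hn'])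
      n
    have h1 : r ∈ {r | r ∈ (stE E)^[(S.toFinset ∪ (E.map (fun t => t.2.2)).toFinset).card] S} :=
      key hn
    have hmono : ∀ a b, a ≤ b → ∀ r, r ∈ (stE E)^[a] S → r ∈ (stE E)^[b] S := by
      intro a b hab
      induction b, hab using Nat.le_induction with
      | base => intro r hr; exact hr
      | succ b _ ih =>
        intro r hr
        rw [Function.iterate_succ_apply', mem_stE]
        exact Or.inl (ih r hr)
    refine hmono _ _ ?_ r h1
    refine (Finset.card_union_le _ _).trans (Nat.add_le_add (List.toFinset_card_le _) ?_)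
    refine (List.toFinset_card_le _).trans ?_
    rw [List.length_map]

/-- letter step -/
def stX (E : List (Tn k)) (S : List ℕ) (x : Lt k) : List ℕ :=
  E.flatMap (fun t => if t.1 ∈ clo E S ∧ t.2.1 = some (dn x) then [t.2.2] else [])

lemma mem_stX (E : List (Tn k)) (S : List ℕ) (x : Lt k) (q' : ℕ) :
    q' ∈ stX E S x ↔ ∃ q ∈ S, dE E q x q' := by
  unfold stX
  rw [List.mem_flatMap]
  constructor
  · rintro ⟨⟨a, b, c⟩, he, h⟩
    split_ifs at h with h1
    · simp only [List.mem_singleton] at h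
      simp only at h1
      obtain ⟨q, hq, h2⟩ := (mem_clo E S a).1 h1.1
      refine ⟨q, hq, a, h2, ?_⟩
      rw [← h1.2, h]; exact he
    · simp at h
  · rintro ⟨q, hq, r, h1, h2⟩
    refine ⟨_, h2, ?_⟩
    rw [if_pos ⟨(mem_clo E S r).2 ⟨q, hq, h1⟩, rfl⟩]
    simp

lemma mem_run (E : List (Tn k)) (S : List ℕ) (w : List (Lt k)) (q' : ℕ) :
    q' ∈ w.foldl (stX E) S ↔ ∃ q ∈ S, Path (dE E) q w q' := by
  induction w generalizing S with
  | nil =>
    constructor
    · intro h; exact ⟨q', h, rfl⟩
    · rintro ⟨q, hq, h⟩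
      have h' : q = q' := h
      rw [← h']; exact hq
  | cons x w ih =>
    rw [List.foldl_cons, ih]
    constructor
    · rintro ⟨r, hr, h⟩
      obtain ⟨q, hq, he⟩ := (mem_stX _ _ _ _).1 hr
      exact ⟨q, hq, r, he, h⟩
    · rintro ⟨q, hq, r, he, h⟩
      exact ⟨r, (mem_stX _ _ _ _).2 ⟨q, hq, he⟩, h⟩

/-- decidable acceptance -/
def accD (A : Ain k) (v : List (Lt k)) : Prop :=
  ∃ f ∈ clo A.1 (v.foldl (stX A.1) [0]), f ∈ A.2

lemma accD_iff (A : Ain k) (v : List (Lt k)) :
    accD A v ↔ AccQ (dF A) (iF A) (fF A) v := by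
  have h1 : AccQ (dF A) (iF A) (fF A) v ↔ AccE A (v.map dn) := by
    rw [accE_iff_fin, map_en_dn]
  rw [h1, accE_iff, map_en_dn]
  constructor
  · rintro ⟨f, hf, h⟩
    obtain ⟨r, hr, h2⟩ := (mem_clo _ _ _).1 hf
    obtain ⟨q, hq, hp⟩ := (mem_run _ _ _ _).1 hr
    rw [List.mem_singleton] at hq
    subst hq
    exact ⟨r, ⟨f, h, h2⟩, hp⟩
  · rintro ⟨r, ⟨f, h, h2⟩, hp⟩
    exact ⟨f, (mem_clo _ _ _).2 ⟨r, (mem_run _ _ _ _).2 ⟨0, List.mem_singleton.2 rfl, hp⟩, h2⟩, h⟩

/-- witness bound -/
def NB (m l : ℕ) : ℕ := ((l + 1) * m + 1) * ((l + 1) * m)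

/-- decidable membership -/
def inkD (A : Ain k) (x : List (Lt k)) : Prop :=
  ∃ v ∈ words k (NB (bE A) x.length), accD A v ∧ sameP x v

lemma inkD_iff (A : Ain k) (x : List (Lt k)) :
    inkD A x ↔ InK (dF A) (iF A) (fF A) x := by
  constructor
  · rintro ⟨v, _, h1, h2⟩
    exact ⟨v, (accD_iff A v).1 h1, (sameP_iff _ _).1 h2⟩
  · intro h
    obtain ⟨v, h1, h2, h3⟩ := ink_bound _ _ _ x h
    rw [Fintype.card_fin] at h3
    exact ⟨v, (mem_words _ _).2 h3, (accD_iff A v).2 h1, (sameP_iff _ _).2 h2⟩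

/-- bounds -/
noncomputable def M0 (k m : ℕ) : ℕ := L0 k (c3 k m)
/-- bounds -/
noncomputable def M1 (k m : ℕ) : ℕ := L1 k (c3 k m) (c2 k m)
/-- bounds -/
noncomputable def M2 (k m : ℕ) : ℕ := L2 k (c3 k m) (c2 k m) (c1 k m)

/-- innermost comparison -/
def R3 (w : List (Lt k)) (z : Ain k × List (Lt k) × List (Lt k)) : Prop :=
  (¬ inkD z.1 (z.2.1 ++ w) ∨ inkD z.1 (z.2.2 ++ w)) ∧
    (¬ inkD z.1 (z.2.2 ++ w) ∨ inkD z.1 (z.2.1 ++ w))

/-- comparison of two words -/
def R2 (u' : List (Lt k)) (z : Ain k × List (Lt k)) : Prop :=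
  ∀ w ∈ words k (M2 k (bE z.1)), R3 w (z.1, z.2, u')

/-- existence of a short equivalent word -/
def R1 (u : List (Lt k)) (A : Ain k) : Prop :=
  ∃ u' ∈ words k (M0 k (bE A)), R2 u' (A, u)

/-- the decision predicate -/
def decR (A : Ain k) : Prop :=
  ∀ u ∈ words k (M1 k (bE A)), R1 u A

theorem decR_iff (A : Ain k) : decR A ↔ (Set.range (resid A)).Finite := by
  rw [finite_resid, finite_iff (dF A) (iF A) (fF A) (c1 k (bE A)) (c2 k (bE A)) (c3 k (bE A))
    (card_1 _ _).symm (card_2 _ _).symm (card_3 _ _).symm]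
  unfold decR R1 R2 R3
  simp only [inkD_iff, mem_words]
  refine forall_congr' fun u => imp_congr Iff.rfl (exists_congr fun u' =>
    and_congr Iff.rfl (forall_congr' fun w => imp_congr Iff.rfl ?_))
  tauto

/-! ### primitive recursiveness -/

lemma prim_kB : Primrec kB := by
  unfold kB
  have h : Primrec (fun m : ℕ => 2 ^ (4 * m)) :=
    prim_pow' (Primrec.const 2) (prim_mul' (Primrec.const 4) Primrec.id)
  exact prim_mul' (Primrec.const 2) (prim_mul' (prim_pow' (Primrec.const 2)
    (prim_mul' Primrec.id Primrec.id)) (prim_mul' h (prim_mul' h (Primrec.const _))))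

lemma prim_kA : Primrec kA := by
  unfold kA
  exact prim_mul' prim_kB (Primrec.const _)

lemma prim_kZ : Primrec kZ := by
  unfold kZ
  exact prim_mul' (prim_pow' (Primrec.const 2) prim_kA) (Primrec.const 2)

lemma prim_kK : Primrec kK := by
  unfold kK
  exact prim_pow' (Primrec.const 2) prim_kZ

lemma prim_c1 : Primrec (c1 k) := by
  unfold c1
  exact prim_mul' (Primrec.const _) (prim_mul' prim_kK prim_kK)

lemma prim_cS : Primrec (cS k) := by
  unfold cS
  exact prim_mul' (Primrec.const _) (prim_mul' (Primrec.const _)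
    (prim_pow' (Primrec.const 2) prim_c1))

lemma prim_c2 : Primrec (c2 k) := by
  unfold c2
  exact prim_mul' (Primrec.const _) (prim_pow' (Primrec.const 2) prim_cS)

lemma prim_c3 : Primrec (c3 k) := by
  unfold c3
  exact prim_pow' (Primrec.const 2) prim_c2

lemma prim_WW : Primrec (WW k) := by
  unfold WW
  have h : Primrec (fun m => (words k m).length) := Primrec.list_length.comp prim_words
  exact prim_mul' (prim_add' h (Primrec.const 1)) h

lemma prim_M0 : Primrec (M0 k) := by
  unfold M0 L0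
  exact prim_WW.comp prim_c3

lemma prim_M1 : Primrec (M1 k) := by
  unfold M1 L1
  exact prim_WW.comp (prim_add' (prim_add' prim_M0 (Primrec.const 1)) prim_c2)

lemma prim_M2 : Primrec (M2 k) := by
  unfold M2 L2
  exact prim_WW.comp (prim_add' (prim_add' (prim_add' prim_M0 prim_M1) (Primrec.const 1)) prim_c1)

lemma prim_bE : Primrec (bE : Ain k → ℕ) := by
  unfold bE
  refine prim_add' ?_ (Primrec.const 1)
  refine Primrec.list_foldl (f := fun A : Ain k => A.1) (g := fun _ : Ain k => 0)
    (h := fun _ (z : ℕ × Tn k) => z.1 + z.2.2.2) Primrec.fst (Primrec.const 0) ?_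
  exact prim_add' (Primrec.fst.comp Primrec.snd)
    (Primrec.snd.comp (Primrec.snd.comp (Primrec.snd.comp Primrec.snd)))

lemma prim_stE : Primrec₂ (stE : List (Tn k) → List ℕ → List ℕ) := by
  unfold stE
  refine Primrec.list_append.comp Primrec.snd (Primrec.list_flatMap Primrec.fst ?_)
  refine Primrec.ite ?_ ?_ (Primrec.const [])
  · refine PrimrecPred.and ?_ ?_
    · exact prim_mem.comp (Primrec.snd.comp Primrec.fst) (Primrec.fst.comp Primrec.snd)
    · exact Primrec.eq.comp (Primrec.fst.comp (Primrec.snd.comp Primrec.snd)) (Primrec.const none)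
  · exact Primrec.list_cons.comp (Primrec.snd.comp (Primrec.snd.comp Primrec.snd))
      (Primrec.const [])

lemma prim_clo : Primrec₂ (clo : List (Tn k) → List ℕ → List ℕ) := by
  unfold clo
  refine Primrec.nat_iterate (f := fun p : List (Tn k) × List ℕ => p.2.length + p.1.length)
    (g := fun p => p.2) (h := fun p S => stE p.1 S) ?_ Primrec.snd ?_
  · exact prim_add' (Primrec.list_length.comp Primrec.snd) (Primrec.list_length.comp Primrec.fst)
  · exact prim_stE.comp (Primrec.fst.comp Primrec.fst) Primrec.snd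

lemma prim_stX : Primrec (fun p : (List (Tn k) × List ℕ) × Lt k => stX p.1.1 p.1.2 p.2) := by
  unfold stX
  refine Primrec.list_flatMap (Primrec.fst.comp Primrec.fst) ?_
  refine Primrec.ite ?_ ?_ (Primrec.const [])
  · refine PrimrecPred.and ?_ ?_
    · exact prim_mem.comp (prim_clo.comp (Primrec.fst.comp (Primrec.fst.comp Primrec.fst))
        (Primrec.snd.comp (Primrec.fst.comp Primrec.fst))) (Primrec.fst.comp Primrec.snd)
    · refine Primrec.eq.comp (Primrec.fst.comp (Primrec.snd.comp Primrec.snd)) ?_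
      exact Primrec.option_some.comp
        ((Primrec.dom_finite dn).comp (Primrec.snd.comp Primrec.fst))
  · exact Primrec.list_cons.comp (Primrec.snd.comp (Primrec.snd.comp Primrec.snd))
      (Primrec.const [])

lemma prim_run' : Primrec (fun p : Ain k × List (Lt k) => p.2.foldl (stX p.1.1) [0]) := by
  refine Primrec.list_foldl (f := fun p : Ain k × List (Lt k) => p.2)
    (g := fun _ : Ain k × List (Lt k) => [0])
    (h := fun p (z : List ℕ × Lt k) => stX p.1.1 z.1 z.2) Primrec.snd (Primrec.const _) ?_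
  exact prim_stX.comp (Primrec.pair (Primrec.pair
    (Primrec.fst.comp (Primrec.fst.comp Primrec.fst)) (Primrec.fst.comp Primrec.snd))
    (Primrec.snd.comp Primrec.snd))

lemma prim_accD : PrimrecRel (fun (A : Ain k) (v : List (Lt k)) => accD A v) := by
  unfold accD
  have h : PrimrecRel (fun (f : ℕ) (b : List ℕ) => f ∈ b) :=
    prim_mem.comp Primrec.snd Primrec.fst
  exact h.exists_mem_list.comp (prim_clo.comp (Primrec.fst.comp Primrec.fst) prim_run')
    (Primrec.snd.comp Primrec.fst)

lemma prim_inkD : PrimrecRel (fun (A : Ain k) (x : List (Lt k)) => inkD A x) := by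
  unfold inkD
  have h2 : PrimrecRel (fun (v : List (Lt k)) (z : Ain k × List (Lt k)) =>
      accD z.1 v ∧ sameP z.2 v) := by
    refine PrimrecPred.and ?_ ?_
    · exact prim_accD.comp (Primrec.fst.comp Primrec.snd) Primrec.fst
    · exact prim_sameP.comp (Primrec.snd.comp Primrec.snd) Primrec.fst
  have hm : Primrec (fun z : Ain k × List (Lt k) => (z.2.length + 1) * bE z.1) :=
    prim_mul' (prim_add' (Primrec.list_length.comp Primrec.snd) (Primrec.const 1))
      (prim_bE.comp Primrec.fst)
  have hN : Primrec (fun z : Ain k × List (Lt k) => NB (bE z.1) z.2.length) := by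
    unfold NB
    exact prim_mul' (prim_add' hm (Primrec.const 1)) hm
  exact h2.exists_mem_list.comp (prim_words.comp hN) Primrec.id

lemma prim_R3 : PrimrecRel (R3 : List (Lt k) → Ain k × List (Lt k) × List (Lt k) → Prop) := by
  have e1 : Primrec (fun z : List (Lt k) × (Ain k × List (Lt k) × List (Lt k)) =>
      z.2.2.1 ++ z.1) :=
    Primrec.list_append.comp (Primrec.fst.comp (Primrec.snd.comp Primrec.snd)) Primrec.fst
  have e2 : Primrec (fun z : List (Lt k) × (Ain k × List (Lt k) × List (Lt k)) =>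
      z.2.2.2 ++ z.1) :=
    Primrec.list_append.comp (Primrec.snd.comp (Primrec.snd.comp Primrec.snd)) Primrec.fst
  have e0 : Primrec (fun z : List (Lt k) × (Ain k × List (Lt k) × List (Lt k)) => z.2.1) :=
    Primrec.fst.comp Primrec.snd
  have f1 := prim_inkD.comp e0 e1
  have f2 := prim_inkD.comp e0 e2
  exact PrimrecPred.and (PrimrecPred.or (PrimrecPred.not f1) f2)
    (PrimrecPred.or (PrimrecPred.not f2) f1)

lemma prim_R2 : PrimrecRel (R2 : List (Lt k) → Ain k × List (Lt k) → Prop) := by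
  have e1 : Primrec (fun z : List (Lt k) × (Ain k × List (Lt k)) =>
      words k (M2 k (bE z.2.1))) :=
    prim_words.comp (prim_M2.comp (prim_bE.comp (Primrec.fst.comp Primrec.snd)))
  have e2 : Primrec (fun z : List (Lt k) × (Ain k × List (Lt k)) => (z.2.1, z.2.2, z.1)) :=
    Primrec.pair (Primrec.fst.comp Primrec.snd)
      (Primrec.pair (Primrec.snd.comp Primrec.snd) Primrec.fst)
  have h := (prim_R3 (k := k)).forall_mem_list
  exact h.comp e1 e2

lemma prim_R1 : PrimrecRel (R1 : List (Lt k) → Ain k → Prop) := by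
  have e1 : Primrec (fun z : List (Lt k) × Ain k => words k (M0 k (bE z.2))) :=
    prim_words.comp (prim_M0.comp (prim_bE.comp Primrec.snd))
  have e2 : Primrec (fun z : List (Lt k) × Ain k => (z.2, z.1)) :=
    Primrec.pair Primrec.snd Primrec.fst
  have h := (prim_R2 (k := k)).exists_mem_list
  exact h.comp e1 e2

lemma prim_decR : PrimrecPred (decR : Ain k → Prop) := by
  have e1 : Primrec (fun A : Ain k => words k (M1 k (bE A))) :=
    prim_words.comp (prim_M1.comp prim_bE)
  have h := (prim_R1 (k := k)).forall_mem_list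
  exact h.comp e1 Primrec.id

theorem main (k : ℕ) : ∃ f : Ain k → Bool, Computable f ∧
    ∀ A, (f A = true ↔ (Set.range (resid A)).Finite) := by
  obtain ⟨inst, hp⟩ := (prim_decR : PrimrecPred (decR : Ain k → Prop))
  refine ⟨fun A => decide (decR A), hp.to_comp, fun A => ?_⟩
  rw [decide_eq_true_iff, decR_iff]

end Pool.Agent.H395R4.Rec
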